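import Pool.Agent.K7.H25.OG.Sym
import Mathlib.RingTheory.KrullDimension.Polynomial

/-!
# The codimension of `MX_{1 × z}` is at most the codimension of `MX_z`
-/

set_option autoImplicit false
set_option linter.unusedSectionVars false
set_option linter.unnecessarySeqFocus false

namespace Pool.Agent.K7.H25.OG

open Finset MvPolynomial

variable {n : ℕ}

/-- the coordinate ring of `MX_z` -/
abbrev CR (z : Equiv.Perm (Fin n)) : Type :=
  MvPolynomial (Sym2 (Fin n)) ℂ ⧸ vanishingIdeal ℂ (MX z)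

/-- the dimension of `MX_z` -/
noncomputable def dimMX (z : Equiv.Perm (Fin n)) : ℕ :=
  ENat.toNat ((ringKrullDim (CR z)).unbotD 0)

/-- the codimension of `MX_z` in the space of symmetric matrices -/
noncomputable def codim (z : Equiv.Perm (Fin n)) : ℕ :=
  Fintype.card (Sym2 (Fin n)) - dimMX z

theorem zero_mem_MX (z : Equiv.Perm (Fin n)) : (0 : Sym2 (Fin n) → ℂ) ∈ MX z := by
  intro i j _ _
  have : ul (symMat (0 : Sym2 (Fin n) → ℂ)) i j = 0 := by
    ext p q
    simp [ul, symMat]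
  rw [this, Matrix.rank_zero]
  exact Nat.zero_le _

instance (z : Equiv.Perm (Fin n)) : Nontrivial (CR z) := by
  rw [Ideal.Quotient.nontrivial_iff]
  intro h
  have h1 : (1 : MvPolynomial (Sym2 (Fin n)) ℂ) ∈ vanishingIdeal ℂ (MX z) := by
    rw [h]; exact Submodule.mem_top
  have h2 := (mem_vanishingIdeal_iff.1 h1) 0 (zero_mem_MX z)
  simp at h2

theorem dim_spec (z : Equiv.Perm (Fin n)) :
    ringKrullDim (CR z) = ((dimMX z : ℕ) : WithBot ℕ∞) ∧
      dimMX z ≤ Fintype.card (Sym2 (Fin n)) := by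
  have h1 : ringKrullDim (CR z) ≤ ((Fintype.card (Sym2 (Fin n)) : ℕ) : WithBot ℕ∞) := by
    refine (ringKrullDim_quotient_le _).trans ?_
    rw [MvPolynomial.ringKrullDim_of_isNoetherianRing, ringKrullDim_eq_zero_of_field, zero_add,
      Nat.card_eq_fintype_card]
  have h2 : 0 ≤ ringKrullDim (CR z) := ringKrullDim_nonneg_of_nontrivial
  obtain ⟨d, hd⟩ : ∃ d : ℕ, ringKrullDim (CR z) = (d : WithBot ℕ∞) := by
    cases h : ringKrullDim (CR z) with
    | bot => rw [h] at h2; simp at h2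
    | coe e =>
      rw [h] at h1
      have h3 : e ≤ (Fintype.card (Sym2 (Fin n)) : ℕ∞) := by exact_mod_cast h1
      have h4 : e ≠ ⊤ := ne_top_of_le_ne_top (ENat.natCast_ne_top _) h3
      exact ⟨e.toNat, by rw [← ENat.natCast_toNat h4]; rfl⟩
  have h3 : dimMX z = d := by
    rw [dimMX, hd]; rfl
  rw [h3]
  refine ⟨hd, ?_⟩
  rw [hd] at h1
  exact_mod_cast h1

section chart

/-- polynomials in `y_1, …, y_n` over the coordinate ring `R` and one more variable -/
abbrev RB (n : ℕ) (R : Type) [CommRing R] : Type := Polynomial (MvPolynomial (Fin n) R)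

variable {R : Type} [CommRing R] (q : MvPolynomial (Sym2 (Fin n)) ℂ →+* R)

/-- the images of the entries of the lower right block -/
noncomputable def bb : Sym2 (Fin (n + 1)) → RB n R :=
  Function.extend (fs n) (fun s => Polynomial.C (MvPolynomial.C (q (X s)))) 0

/-- the variables `y`, with `y_0 = 1` -/
noncomputable def yy (n : ℕ) (R : Type) [CommRing R] : Fin (n + 1) → RB n R :=
  Fin.cons 1 (fun j => Polynomial.C (X j))

/-- the generic matrix -/
noncomputable def gen : Sym2 (Fin (n + 1)) → RB n R :=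
  Sym2.lift ⟨fun i j => bb q s(i, j) + Polynomial.X * (yy n R i * yy n R j), fun i j => by
    beta_reduce
    rw [Sym2.eq_swap, mul_comm (yy n R i)]⟩

theorem gen_mk (i j : Fin (n + 1)) :
    gen q s(i, j) = bb q s(i, j) + Polynomial.X * (yy n R i * yy n R j) := rfl

theorem bb_zero (j : Fin (n + 1)) : bb q s(0, j) = 0 := by
  rw [bb, Function.extend_apply']
  · rfl
  · rintro ⟨t, ht⟩
    apply zero_notMem_fs t
    rw [ht]
    exact Sym2.mem_mk_left _ _

theorem bb_fs (s : Sym2 (Fin n)) :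
    bb q (fs n s) = Polynomial.C (MvPolynomial.C (q (X s))) := by
  rw [bb, fs_inj.extend_apply]

/-- the chart -/
noncomputable def ph : MvPolynomial (Sym2 (Fin (n + 1))) ℂ →+* RB n R :=
  eval₂Hom (Polynomial.C.comp (MvPolynomial.C.comp (q.comp MvPolynomial.C))) (gen q)

theorem ph_X (s : Sym2 (Fin (n + 1))) : ph q (X s) = gen q s := by
  rw [ph, eval₂Hom_X']

theorem ph_C (c : ℂ) : ph q (C c) = Polynomial.C (MvPolynomial.C (q (MvPolynomial.C c))) := by
  rw [ph, eval₂Hom_C]; rfl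

theorem ph_zero_zero : ph q (X s(0, 0)) = Polynomial.X := by
  rw [ph_X, gen_mk, bb_zero, yy, Fin.cons_zero]; ring

theorem ph_zero_succ (j : Fin n) :
    ph q (X s(0, j.succ)) = Polynomial.X * Polynomial.C (X j) := by
  rw [ph_X, gen_mk, bb_zero, yy, Fin.cons_zero, Fin.cons_succ]; ring

/-- every element of the chart becomes polynomial in the entries after multiplication by a power
of the first entry -/
theorem exists_pow (hq : Function.Surjective q) (g : RB n R) :
    ∃ (k : ℕ) (h : MvPolynomial (Sym2 (Fin (n + 1))) ℂ), Polynomial.X ^ k * g = ph q h := by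
  have hadd : ∀ g₁ g₂ : RB n R,
      (∃ (k : ℕ) (h : MvPolynomial (Sym2 (Fin (n + 1))) ℂ), Polynomial.X ^ k * g₁ = ph q h) →
      (∃ (k : ℕ) (h : MvPolynomial (Sym2 (Fin (n + 1))) ℂ), Polynomial.X ^ k * g₂ = ph q h) →
      ∃ (k : ℕ) (h : MvPolynomial (Sym2 (Fin (n + 1))) ℂ),
        Polynomial.X ^ k * (g₁ + g₂) = ph q h := by
    rintro g₁ g₂ ⟨k₁, h₁, e₁⟩ ⟨k₂, h₂, e₂⟩
    refine ⟨k₁ + k₂, X s(0, 0) ^ k₂ * h₁ + X s(0, 0) ^ k₁ * h₂, ?_⟩
    rw [map_add, map_mul, map_mul, map_pow, map_pow, ph_zero_zero, ← e₁, ← e₂]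
    ring
  have hmul : ∀ g₁ g₂ : RB n R,
      (∃ (k : ℕ) (h : MvPolynomial (Sym2 (Fin (n + 1))) ℂ), Polynomial.X ^ k * g₁ = ph q h) →
      (∃ (k : ℕ) (h : MvPolynomial (Sym2 (Fin (n + 1))) ℂ), Polynomial.X ^ k * g₂ = ph q h) →
      ∃ (k : ℕ) (h : MvPolynomial (Sym2 (Fin (n + 1))) ℂ),
        Polynomial.X ^ k * (g₁ * g₂) = ph q h := by
    rintro g₁ g₂ ⟨k₁, h₁, e₁⟩ ⟨k₂, h₂, e₂⟩
    refine ⟨k₁ + k₂, h₁ * h₂, ?_⟩
    rw [map_mul, ← e₁, ← e₂]
    ring
  have hX : ∃ (k : ℕ) (h : MvPolynomial (Sym2 (Fin (n + 1))) ℂ),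
      Polynomial.X ^ k * (Polynomial.X : RB n R) = ph q h :=
    ⟨0, X s(0, 0), by rw [ph_zero_zero, pow_zero, one_mul]⟩
  have hR : ∀ r : R, ∃ (k : ℕ) (h : MvPolynomial (Sym2 (Fin (n + 1))) ℂ),
      Polynomial.X ^ k * (Polynomial.C (MvPolynomial.C r) : RB n R) = ph q h := by
    intro r
    obtain ⟨F, rfl⟩ := hq r
    induction F using MvPolynomial.induction_on with
    | C c => exact ⟨0, C c, by rw [ph_C, pow_zero, one_mul]⟩
    | add p q hp hq =>
      rw [map_add, map_add, map_add]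
      exact hadd _ _ hp hq
    | mul_X p s hp =>
      rw [map_mul, map_mul, map_mul]
      refine hmul _ _ hp ?_
      induction s using Sym2.ind with
      | _ i j =>
        refine ⟨1, X s(0, 0) * X s(i.succ, j.succ) - X s(0, i.succ) * X s(0, j.succ), ?_⟩
        rw [map_sub, map_mul, map_mul, ph_zero_zero, ph_zero_succ, ph_zero_succ, ph_X, gen_mk,
          ← fs_mk, bb_fs, yy, Fin.cons_succ, Fin.cons_succ]
        ring
  have hA : ∀ a : MvPolynomial (Fin n) R,
      ∃ (k : ℕ) (h : MvPolynomial (Sym2 (Fin (n + 1))) ℂ),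
      Polynomial.X ^ k * (Polynomial.C a : RB n R) = ph q h := by
    intro a
    induction a using MvPolynomial.induction_on with
    | C r => exact hR r
    | add p q hp hq =>
      rw [map_add]
      exact hadd _ _ hp hq
    | mul_X p j hp =>
      rw [map_mul]
      exact hmul _ _ hp ⟨1, X s(0, j.succ), by rw [ph_zero_succ, pow_one]⟩
  induction g using Polynomial.induction_on' with
  | add p q hp hq => exact hadd _ _ hp hq
  | monomial k a =>
    rw [← Polynomial.C_mul_X_pow_eq_monomial]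
    refine hmul _ _ (hA a) ?_
    induction k with
    | zero => exact ⟨0, 1, by simp⟩
    | succ k ih =>
      rw [pow_succ]
      exact hmul _ _ ih hX

/-- extension of primes -/
noncomputable def extC (p : PrimeSpectrum (MvPolynomial (Fin n) R)) : PrimeSpectrum (RB n R) :=
  ⟨p.asIdeal.map Polynomial.C, Ideal.isPrime_map_C_of_isPrime⟩

theorem extC_asIdeal (p : PrimeSpectrum (MvPolynomial (Fin n) R)) :
    (extC p).asIdeal = p.asIdeal.map Polynomial.C := rfl

theorem X_notMem_extC (p : PrimeSpectrum (MvPolynomial (Fin n) R)) :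
    Polynomial.X ∉ (extC p).asIdeal := by
  intro h
  rw [extC_asIdeal, Ideal.mem_map_C_iff] at h
  have := h 1
  rw [Polynomial.coeff_X_one] at this
  exact p.isPrime.ne_top ((Ideal.eq_top_iff_one _).2 this)

theorem extC_lt {p₁ p₂ : PrimeSpectrum (MvPolynomial (Fin n) R)} (h : p₁ < p₂) :
    extC p₁ < extC p₂ := by
  have h1 : p₁.asIdeal < p₂.asIdeal := h
  obtain ⟨g, hgq, hgp⟩ := Set.exists_of_ssubset h1
  refine lt_of_le_of_ne (Ideal.map_mono h1.le) ?_
  intro heq
  have h2 : Polynomial.C g ∈ (extC p₂).asIdeal := Ideal.mem_map_of_mem _ hgq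
  rw [← heq, extC_asIdeal, Ideal.mem_map_C_iff] at h2
  have := h2 0
  rw [Polynomial.coeff_C_zero] at this
  exact hgp this

/-- the prime `(p, X - 1)` -/
noncomputable def topC (p : PrimeSpectrum (MvPolynomial (Fin n) R)) : PrimeSpectrum (RB n R) :=
  PrimeSpectrum.comap (Polynomial.evalRingHom 1) p

theorem extC_lt_topC (p : PrimeSpectrum (MvPolynomial (Fin n) R)) : extC p < topC p := by
  refine lt_of_le_of_ne ?_ ?_
  · change p.asIdeal.map Polynomial.C ≤ p.asIdeal.comap (Polynomial.evalRingHom 1)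
    rw [Ideal.map_le_iff_le_comap]
    intro a ha
    rw [Ideal.mem_comap, Ideal.mem_comap]
    simpa using ha
  · intro heq
    have h1 : (Polynomial.X - 1 : RB n R) ∈ (topC p).asIdeal := by
      rw [topC, PrimeSpectrum.comap_asIdeal, Ideal.mem_comap]
      simp
    rw [← heq, extC_asIdeal, Ideal.mem_map_C_iff] at h1
    have := h1 1
    rw [Polynomial.coeff_sub, Polynomial.coeff_X_one, Polynomial.coeff_one] at this
    simp only [if_neg one_ne_zero, sub_zero] at this
    exact p.isPrime.ne_top ((Ideal.eq_top_iff_one _).2 this)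

theorem comap_lt (hq : Function.Surjective q)
    {S : Type} [CommRing S] (r : MvPolynomial (Sym2 (Fin (n + 1))) ℂ →+* S) (g : S →+* RB n R)
    (hg : ∀ F, g (r F) = ph q F)
    {P Q : PrimeSpectrum (RB n R)} (h : P < Q) (hP : Polynomial.X ∉ P.asIdeal) :
    PrimeSpectrum.comap g P < PrimeSpectrum.comap g Q := by
  have h1 : P.asIdeal < Q.asIdeal := h
  refine lt_of_le_of_ne (Ideal.comap_mono h1.le) ?_
  intro heq
  obtain ⟨e, heQ, heP⟩ := Set.exists_of_ssubset h1
  obtain ⟨k, F, hF⟩ := exists_pow q hq e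
  have h2 : r F ∈ (PrimeSpectrum.comap g Q).asIdeal := by
    rw [PrimeSpectrum.comap_asIdeal, Ideal.mem_comap, hg, ← hF]
    exact Ideal.mul_mem_left _ _ heQ
  rw [← heq, PrimeSpectrum.comap_asIdeal, Ideal.mem_comap, hg, ← hF] at h2
  rcases P.isPrime.mem_or_mem h2 with h3 | h3
  · exact hP (P.isPrime.mem_of_pow_mem _ h3)
  · exact heP h3

theorem dim_chart (hq : Function.Surjective q)
    {S : Type} [CommRing S] (r : MvPolynomial (Sym2 (Fin (n + 1))) ℂ →+* S) (g : S →+* RB n R)
    (hg : ∀ F, g (r F) = ph q F) [IsNoetherianRing R] {d : ℕ}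
    (hd : ((d : ℕ) : WithBot ℕ∞) ≤ ringKrullDim R) :
    ((d + n + 1 : ℕ) : WithBot ℕ∞) ≤ ringKrullDim S := by
  have h3 : ((d + n : ℕ) : WithBot ℕ∞) ≤ ringKrullDim (MvPolynomial (Fin n) R) := by
    rw [MvPolynomial.ringKrullDim_of_isNoetherianRing, Nat.card_eq_fintype_card,
      Fintype.card_fin]
    push_cast
    gcongr
  obtain ⟨l, hl⟩ := Order.le_krullDim_iff.1 h3
  let f : PrimeSpectrum (MvPolynomial (Fin n) R) → PrimeSpectrum S :=
    fun p => PrimeSpectrum.comap g (extC p)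
  have hf : StrictMono f := fun p₁ p₂ hp => comap_lt q hq r g hg (extC_lt hp) (X_notMem_extC p₁)
  let l' := l.map f hf
  have hl' : l'.last = f l.last := rfl
  let l'' : LTSeries (PrimeSpectrum S) :=
    RelSeries.snoc l' (PrimeSpectrum.comap g (topC l.last)) (by
    change l'.last < _
    rw [hl']
    exact comap_lt q hq r g hg (extC_lt_topC _) (X_notMem_extC _))
  have h5 : l''.length = d + n + 1 := by
    change l.length + 0 + 1 = _
    rw [hl]
  have h4 := Order.le_krullDim_iff.2 ⟨l'', h5⟩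
  exact h4

end chart

section eval

variable (z : Equiv.Perm (Fin n)) {R : Type} [CommRing R]
  (q : MvPolynomial (Sym2 (Fin n)) ℂ →+* R) (hq : Function.Surjective q)
  (rho : ∀ b : Sym2 (Fin n) → ℂ, b ∈ MX z → (R →+* ℂ))
  (hrho : ∀ b hb F, rho b hb (q F) = eval b F)
  (hzero : ∀ F, (∀ b ∈ MX z, eval b F = 0) → q F = 0)

/-- evaluation of the chart -/
noncomputable def tau (ρ : R →+* ℂ) (v : Fin n → ℂ) (x : ℂ) : RB n R →+* ℂ :=
  (Polynomial.evalRingHom x).comp (Polynomial.mapRingHom (eval₂Hom ρ v))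

theorem tau_apply (ρ : R →+* ℂ) (v : Fin n → ℂ) (x : ℂ) (P : RB n R) :
    tau ρ v x P = (P.map (eval₂Hom ρ v)).eval x := rfl

include hq hrho hzero in
theorem eq_zero_of_tau {P : RB n R} (h : ∀ (b : Sym2 (Fin n) → ℂ) (hb : b ∈ MX z)
    (v : Fin n → ℂ) (x : ℂ), x ≠ 0 → tau (rho b hb) v x P = 0) : P = 0 := by
  ext1 k
  rw [Polynomial.coeff_zero]
  ext1 m
  rw [MvPolynomial.coeff_zero]
  obtain ⟨F, hF⟩ := hq (MvPolynomial.coeff m (P.coeff k))
  rw [← hF]
  apply hzero
  intro b hb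
  rw [← hrho b hb, hF, ← coeff_map]
  have h1 : MvPolynomial.map (rho b hb) (P.coeff k) = 0 := by
    apply MvPolynomial.funext
    intro v
    rw [map_zero, eval_map]
    have h2 : Polynomial.X * P.map (eval₂Hom (rho b hb) v) = 0 := by
      apply Polynomial.funext
      intro x
      rw [Polynomial.eval_mul, Polynomial.eval_X, Polynomial.eval_zero]
      by_cases hx : x = 0
      · rw [hx, zero_mul]
      · rw [← tau_apply, h b hb v x hx, mul_zero]
    have h3 : P.map (eval₂Hom (rho b hb) v) = 0 :=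
      (mul_eq_zero.1 h2).resolve_left Polynomial.X_ne_zero
    have h4 := congrArg (fun Q => Polynomial.coeff Q k) h3
    simp only [Polynomial.coeff_map, Polynomial.coeff_zero] at h4
    exact h4
  rw [h1, MvPolynomial.coeff_zero]

/-- the point of the chart -/
noncomputable def pt (b : Sym2 (Fin n) → ℂ) (v : Fin n → ℂ) (x : ℂ) :
    Sym2 (Fin (n + 1)) → ℂ :=
  Sym2.lift ⟨fun i j => Function.extend (fs n) b 0 s(i, j) +
    x * ((Fin.cons 1 v : Fin (n + 1) → ℂ) i * (Fin.cons 1 v : Fin (n + 1) → ℂ) j), fun i j => by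
    beta_reduce
    rw [Sym2.eq_swap, mul_comm ((Fin.cons 1 v : Fin (n + 1) → ℂ) i)]⟩

theorem pt_mk (b : Sym2 (Fin n) → ℂ) (v : Fin n → ℂ) (x : ℂ) (i j : Fin (n + 1)) :
    pt b v x s(i, j) = Function.extend (fs n) b 0 s(i, j) +
      x * ((Fin.cons 1 v : Fin (n + 1) → ℂ) i * (Fin.cons 1 v : Fin (n + 1) → ℂ) j) := rfl

theorem ext_zero (b : Sym2 (Fin n) → ℂ) (j : Fin (n + 1)) :
    Function.extend (fs n) b 0 s(0, j) = 0 := by
  rw [Function.extend_apply']
  · rfl
  · rintro ⟨t, ht⟩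
    apply zero_notMem_fs t
    rw [ht]
    exact Sym2.mem_mk_left _ _

include hrho in
theorem tau_ph {b : Sym2 (Fin n) → ℂ} (hb : b ∈ MX z) (v : Fin n → ℂ) (x : ℂ)
    (F : MvPolynomial (Sym2 (Fin (n + 1))) ℂ) :
    tau (rho b hb) v x (ph q F) = eval (pt b v x) F := by
  have h : (tau (rho b hb) v x).comp (ph q) = eval (pt b v x) := by
    apply MvPolynomial.ringHom_ext
    · intro c
      rw [RingHom.comp_apply, ph_C, tau_apply, Polynomial.map_C, Polynomial.eval_C, eval_C,
        coe_eval₂Hom, eval₂_C, hrho, eval_C]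
    · intro s
      rw [RingHom.comp_apply, ph_X, eval_X]
      induction s using Sym2.ind with
      | _ i j =>
        rw [gen_mk, pt_mk, map_add, map_mul, map_mul]
        have h1 : tau (rho b hb) v x Polynomial.X = x := by
          rw [tau_apply, Polynomial.map_X, Polynomial.eval_X]
        have h2 : ∀ i, tau (rho b hb) v x (yy n R i) = (Fin.cons 1 v : Fin (n + 1) → ℂ) i := by
          intro i
          refine Fin.cases ?_ (fun i => ?_) i
          · rw [yy, Fin.cons_zero, Fin.cons_zero, map_one]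
          · rw [yy, Fin.cons_succ, Fin.cons_succ, tau_apply, Polynomial.map_C, Polynomial.eval_C,
              coe_eval₂Hom, eval₂_X]
        have h3 : ∀ s, tau (rho b hb) v x (bb q s) = Function.extend (fs n) b 0 s := by
          intro s
          by_cases hs : (0 : Fin (n + 1)) ∈ s
          · obtain ⟨j, rfl⟩ := hs
            rw [bb_zero, ext_zero, map_zero]
          · obtain ⟨t, rfl⟩ := exists_fs hs
            rw [bb_fs, fs_inj.extend_apply, tau_apply, Polynomial.map_C, Polynomial.eval_C,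
              coe_eval₂Hom, eval₂_C, hrho, eval_X]
        rw [h1, h2, h2, h3]
  exact RingHom.congr_fun h F

theorem scal_scal (t u : ℂ) (a : Sym2 (Fin (n + 1)) → ℂ) :
    scal t (scal u a) = scal (t * u) a := by
  funext s
  simp only [scal]
  rw [mul_pow]; ring

theorem scal_one (a : Sym2 (Fin (n + 1)) → ℂ) : scal 1 a = a := by
  funext s
  simp [scal]

theorem pt_mem {b : Sym2 (Fin n) → ℂ} (hb : b ∈ MX z) (v : Fin n → ℂ) {x : ℂ} (hx : x ≠ 0) :
    pt b v x ∈ MX (oneTimes z) := by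
  obtain ⟨t, ht⟩ := IsAlgClosed.exists_pow_nat_eq x⁻¹ (n := 2) (by norm_num)
  have ht0 : t ≠ 0 := by
    rintro rfl
    rw [zero_pow (by norm_num)] at ht
    exact inv_ne_zero hx ht.symm
  have h00 : (wtS (n + 1) s(0, 0)) 0 = 2 := by
    rw [wtS_mk, Finsupp.add_apply, Finsupp.single_eq_same]
  have h0j : ∀ j : Fin n, (wtS (n + 1) s(0, j.succ)) 0 = 1 := by
    intro j
    rw [wtS_mk, Finsupp.add_apply, Finsupp.single_eq_same,
      Finsupp.single_eq_of_ne (Fin.succ_ne_zero j).symm, add_zero]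
  have hij : ∀ i j : Fin n, (wtS (n + 1) s(i.succ, j.succ)) 0 = 0 := by
    intro i j
    rw [wtS_mk, Finsupp.add_apply, Finsupp.single_eq_of_ne (Fin.succ_ne_zero j).symm,
      Finsupp.single_eq_of_ne (Fin.succ_ne_zero i).symm, add_zero]
  have h1 : scal t (pt b v x) ∈ MX (oneTimes z) := by
    rw [mem_MX_oneTimes]
    · have h2 : schur (scal t (pt b v x)) = b := by
        funext s
        induction s using Sym2.ind with
        | _ i j =>
          have h3 : Function.extend (fs n) b 0 s(i.succ, j.succ) = b s(i, j) := by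
            rw [← fs_mk, fs_inj.extend_apply]
          simp only [schur, Sym2.lift_mk, scal, h0j, hij, pt_mk, ext_zero, Fin.cons_zero,
            Fin.cons_succ, h3]
          linear_combination (-(x ^ 2 * v i * v j)) * ht + (-(x * v i * v j)) *
            (mul_inv_cancel₀ hx)
      rw [h2]
      exact hb
    · simp only [scal, h00, pt_mk, ext_zero, Fin.cons_zero]
      rw [ht]
      field_simp
      ring
  have h2 := scal_MX (oneTimes z) t⁻¹ (inv_ne_zero ht0) _ h1
  rwa [scal_scal, inv_mul_cancel₀ ht0, scal_one] at h2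

include hq hrho hzero in
theorem ph_eq_zero {F : MvPolynomial (Sym2 (Fin (n + 1))) ℂ}
    (hF : ∀ a ∈ MX (oneTimes z), eval a F = 0) : ph q F = 0 := by
  apply eq_zero_of_tau z q hq rho hrho hzero
  intro b hb v x hx
  rw [tau_ph z q rho hrho]
  exact hF _ (pt_mem z hb v hx)

end eval

theorem dim_ge (z : Equiv.Perm (Fin n)) : dimMX z + n + 1 ≤ dimMX (oneTimes z) := by
  obtain ⟨h1, -⟩ := dim_spec z
  obtain ⟨h2, -⟩ := dim_spec (oneTimes z)
  let q : MvPolynomial (Sym2 (Fin n)) ℂ →+* CR z := Ideal.Quotient.mk _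
  let rho : ∀ b : Sym2 (Fin n) → ℂ, b ∈ MX z → (CR z →+* ℂ) := fun b hb =>
    Ideal.Quotient.lift _ (eval b) fun F hF => mem_vanishingIdeal_iff.1 hF b hb
  have hrho : ∀ b hb F, rho b hb (q F) = eval b F := fun b hb F => rfl
  have hzero : ∀ F, (∀ b ∈ MX z, eval b F = 0) → q F = 0 := fun F hF =>
    Ideal.Quotient.eq_zero_iff_mem.2 (mem_vanishingIdeal_iff.2 hF)
  let g : CR (oneTimes z) →+* RB n (CR z) :=
    Ideal.Quotient.lift _ (ph q) fun F hF =>
      ph_eq_zero z q Ideal.Quotient.mk_surjective rho hrho hzero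
        (fun a ha => mem_vanishingIdeal_iff.1 hF a ha)
  have h3 := dim_chart q Ideal.Quotient.mk_surjective (Ideal.Quotient.mk _) g (fun F => rfl)
    h1.ge
  rw [h2] at h3
  exact_mod_cast h3

theorem card_sym2_succ : Fintype.card (Sym2 (Fin (n + 1))) = Fintype.card (Sym2 (Fin n)) + n + 1 := by
  rw [Sym2.card, Sym2.card, Fintype.card_fin, Fintype.card_fin, Nat.choose_succ_succ' (n + 1) 1,
    Nat.choose_one_right]
  ring

theorem codim_le (z : Equiv.Perm (Fin n)) : codim (oneTimes z) ≤ codim z := by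
  have h1 := dim_ge z
  have h2 := card_sym2_succ (n := n)
  have h3 := (dim_spec z).2
  rw [codim, codim]
  omega

/-- the codimension of `MX_{1^m × z}` is eventually constant -/
theorem codim_eventually (z : Equiv.Perm (Fin n)) :
    ∃ M, ∀ m, M ≤ m → codim (oneX m z) = codim (oneX M z) := by
  have hanti : Antitone fun m => codim (oneX m z) :=
    antitone_nat_of_succ_le fun m => codim_le (oneX m z)
  obtain ⟨M, hM⟩ : ∃ M, ∀ m, codim (oneX M z) ≤ codim (oneX m z) := by
    let S : Set ℕ := Set.range fun m => codim (oneX m z)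
    obtain ⟨M, hM⟩ := Nat.sInf_mem (s := S) ⟨_, 0, rfl⟩
    exact ⟨M, fun m => by
      change codim (oneX M z) = sInf S at hM
      rw [hM]; exact Nat.sInf_le ⟨m, rfl⟩⟩
  exact ⟨M, fun m hm => le_antisymm (hanti hm) (hM m)⟩

end Pool.Agent.K7.H25.OG
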