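import Pool.Agent.K7.H25.OG.Fun

/-!
# Orthogonal Grothendieck polynomials
-/

set_option autoImplicit false
set_option linter.unusedSectionVars false

namespace Pool.Agent.K7.H25.OG

open Finset MvPolynomial

/-- The symmetric `n × n` matrix with the coordinates `a s(i, j) = A_ij = A_ji`. -/
def symMat {n : ℕ} (a : Sym2 (Fin n) → ℂ) : Matrix (Fin n) (Fin n) ℂ :=
  Matrix.of fun i j => a s(i, j)

/-- The permutation matrix of `z`, with the entries `1` at `(i, z i)`. -/
def permMat {n : ℕ} (z : Equiv.Perm (Fin n)) : Matrix (Fin n) (Fin n) ℂ :=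
  Matrix.of fun i j => if z i = j then 1 else 0

/-- The upper-left `i × j` submatrix. -/
def ul {n : ℕ} (A : Matrix (Fin n) (Fin n) ℂ) (i j : ℕ) :
    Matrix {k : Fin n // (k : ℕ) < i} {k : Fin n // (k : ℕ) < j} ℂ :=
  A.submatrix (fun k => k.1) (fun k => k.1)

/-- The variety `MX_z` of symmetric matrices `A` with `rank A_[i][j] ≤ rank z_[i][j]`. -/
def MX {n : ℕ} (z : Equiv.Perm (Fin n)) : Set (Sym2 (Fin n) → ℂ) :=
  {a | ∀ i j : ℕ, i ≤ n → j ≤ n → (ul (symMat a) i j).rank ≤ (ul (permMat z) i j).rank}

/-- The weight `a_i a_j` of the coordinate `A_ij`, as an exponent vector. -/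
noncomputable def wtS (n : ℕ) : Sym2 (Fin n) → (Fin n →₀ ℕ) :=
  Sym2.lift ⟨fun i j => Finsupp.single i 1 + Finsupp.single j 1, fun _ _ => add_comm _ _⟩

theorem wtS_mk {n : ℕ} (i j : Fin n) :
    wtS n s(i, j) = Finsupp.single i 1 + Finsupp.single j 1 := rfl

theorem wtS_ne {n : ℕ} (s : Sym2 (Fin n)) : wtS n s ≠ 0 := by
  induction s using Sym2.ind with
  | _ i j =>
    rw [wtS_mk]
    intro h
    have := DFunLike.congr_fun h i
    simp at this

section rank

variable {α β : Type} [Fintype α] [Fintype β] [DecidableEq α] [DecidableEq β]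

theorem rank_option (M : Matrix (Option α) (Option β) ℂ) (h : M none none = 1) :
    M.rank = (Matrix.of fun i j => M (some i) (some j) - M (some i) none * M none (some j) :
      Matrix α β ℂ).rank + 1 := by
  set S : Matrix α β ℂ :=
    Matrix.of fun i j => M (some i) (some j) - M (some i) none * M none (some j) with hS
  have hM : ∀ (x : Option β → ℂ) (i : Option α),
      M.mulVec x i = M i none * x none + ∑ j, M i (some j) * x (some j) := by
    intro x i
    simp [Matrix.mulVec, dotProduct, Fintype.sum_option]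
  have hSx : ∀ (x : β → ℂ) (i : α), S.mulVec x i =
      ∑ j, M (some i) (some j) * x j - M (some i) none * ∑ j, M none (some j) * x j := by
    intro x i
    simp only [Matrix.mulVec, dotProduct, hS, Matrix.of_apply, sub_mul, Finset.sum_sub_distrib,
      Finset.mul_sum, mul_assoc]
  have e : LinearMap.ker M.mulVecLin ≃ₗ[ℂ] LinearMap.ker S.mulVecLin := by
    refine LinearEquiv.ofBijective
      (((LinearMap.funLeft ℂ ℂ (some : β → Option β)).domRestrict
        (LinearMap.ker M.mulVecLin)).codRestrict (LinearMap.ker S.mulVecLin) ?_) ⟨?_, ?_⟩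
    · rintro ⟨x, hx⟩
      rw [LinearMap.mem_ker] at hx ⊢
      funext i
      change S.mulVec (fun j => x (some j)) i = 0
      have h0 : M.mulVec x none = 0 := congrFun hx none
      have h1 : M.mulVec x (some i) = 0 := congrFun hx (some i)
      rw [hM] at h0 h1
      rw [h, one_mul] at h0
      rw [hSx]
      linear_combination h1 - M (some i) none * h0
    · rw [← LinearMap.ker_eq_bot, LinearMap.ker_eq_bot']
      rintro ⟨x, hx⟩ h0
      have h1 : ∀ j, x (some j) = 0 := fun j => congrFun (congrArg Subtype.val h0) j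
      have h2 : M.mulVec x none = 0 := congrFun (LinearMap.mem_ker.1 hx) none
      rw [hM, h, one_mul] at h2
      simp only [h1, mul_zero, Finset.sum_const_zero, add_zero] at h2
      ext i
      rcases i with _ | j
      · exact h2
      · exact h1 j
    · rintro ⟨x, hx⟩
      let y : Option β → ℂ := fun o => o.elim (-∑ j, M none (some j) * x j) x
      have hy : y ∈ LinearMap.ker M.mulVecLin := by
        rw [LinearMap.mem_ker]
        funext i
        change M.mulVec y i = 0
        rw [hM]
        change M i none * (-∑ j, M none (some j) * x j) + ∑ j, M i (some j) * x j = 0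
        rcases i with _ | i
        · rw [h]; ring
        · have h1 : S.mulVec x i = 0 := congrFun (LinearMap.mem_ker.1 hx) i
          rw [hSx] at h1
          linear_combination h1
      exact ⟨⟨y, hy⟩, rfl⟩
  have h1 := M.mulVecLin.finrank_range_add_finrank_ker
  have h2 := S.mulVecLin.finrank_range_add_finrank_ker
  rw [e.finrank_eq] at h1
  simp only [Module.finrank_fintype_fun_eq_card, Fintype.card_option] at h1 h2
  change M.rank + _ = _ at h1
  change S.rank + _ = _ at h2
  omega

end rank

/-- `{k < i} ∪ {∗} ≃ {k < i + 1}` -/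
def optEquiv (n i : ℕ) :
    Option {k : Fin n // (k : ℕ) < i} ≃ {k : Fin (n + 1) // (k : ℕ) < i + 1} where
  toFun o := o.elim ⟨0, by simp⟩ fun k => ⟨k.1.succ, by simpa using k.2⟩
  invFun k := if h : k.1 = 0 then none else
    some ⟨k.1.pred h, by have := k.2; rw [Fin.val_pred]; have := Fin.pos_iff_ne_zero.2 h;
                         rw [Fin.lt_def] at this; simp at this; omega⟩
  left_inv o := by
    rcases o with _ | k
    · simp
    · simp [Fin.succ_ne_zero]
  right_inv k := by
    obtain ⟨k, hk⟩ := k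
    by_cases h : k = 0
    · subst h; simp
    · simp [h]

theorem optEquiv_none (n i : ℕ) : ((optEquiv n i none).1 : Fin (n + 1)) = 0 := rfl

theorem optEquiv_some (n i : ℕ) (k : {k : Fin n // (k : ℕ) < i}) :
    ((optEquiv n i (some k)).1 : Fin (n + 1)) = k.1.succ := rfl

/-- rank and Schur complement of the upper-left submatrices -/
theorem rank_ul_succ {n : ℕ} (A : Matrix (Fin (n + 1)) (Fin (n + 1)) ℂ) (h : A 0 0 = 1)
    (i j : ℕ) :
    (ul A (i + 1) (j + 1)).rank =
      (ul (Matrix.of fun i j : Fin n => A i.succ j.succ - A i.succ 0 * A 0 j.succ) i j).rank + 1 := by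
  rw [← Matrix.rank_submatrix (ul A (i + 1) (j + 1)) (optEquiv n i) (optEquiv n j),
    rank_option _ (by simpa [ul, optEquiv_none] using h)]
  rfl

theorem rank_ul_zero_left {n : ℕ} (A : Matrix (Fin n) (Fin n) ℂ) (j : ℕ) :
    (ul A 0 j).rank = 0 := by
  have : IsEmpty {k : Fin n // (k : ℕ) < 0} := ⟨fun k => by omega⟩
  have := Matrix.rank_le_card_height (ul A 0 j)
  simpa using this

theorem rank_ul_zero_right {n : ℕ} (A : Matrix (Fin n) (Fin n) ℂ) (i : ℕ) :
    (ul A i 0).rank = 0 := by
  have : IsEmpty {k : Fin n // (k : ℕ) < 0} := ⟨fun k => by omega⟩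
  have := Matrix.rank_le_card_width (ul A i 0)
  simpa using this

/-- `1 × z` -/
def oneTimes {n : ℕ} (z : Equiv.Perm (Fin n)) : Equiv.Perm (Fin (n + 1)) :=
  Equiv.Perm.decomposeFin.symm (0, z)

theorem oneTimes_zero {n : ℕ} (z : Equiv.Perm (Fin n)) : oneTimes z 0 = 0 := by
  simp [oneTimes]

theorem oneTimes_succ {n : ℕ} (z : Equiv.Perm (Fin n)) (i : Fin n) :
    oneTimes z i.succ = (z i).succ := by
  simp [oneTimes]

theorem rank_perm_succ {n : ℕ} (z : Equiv.Perm (Fin n)) (i j : ℕ) :
    (ul (permMat (oneTimes z)) (i + 1) (j + 1)).rank = (ul (permMat z) i j).rank + 1 := by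
  rw [rank_ul_succ _ (by simp [permMat, oneTimes_zero])]
  congr 2
  ext i j
  simp only [ul, permMat, Matrix.submatrix_apply, Matrix.of_apply, oneTimes_zero, oneTimes_succ,
    Fin.succ_inj, (Fin.succ_ne_zero _).symm, if_false, mul_zero, sub_zero]

/-- the Schur complement of a symmetric matrix with first entry `1` -/
def schur {n : ℕ} (a : Sym2 (Fin (n + 1)) → ℂ) : Sym2 (Fin n) → ℂ :=
  Sym2.lift ⟨fun i j => a s(i.succ, j.succ) - a s(0, i.succ) * a s(0, j.succ), fun i j => by
    beta_reduce
    rw [Sym2.eq_swap (a := i.succ), mul_comm]⟩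

theorem mem_MX_oneTimes {n : ℕ} (z : Equiv.Perm (Fin n)) (a : Sym2 (Fin (n + 1)) → ℂ)
    (h : a s(0, 0) = 1) : a ∈ MX (oneTimes z) ↔ schur a ∈ MX z := by
  have key : ∀ i j : ℕ, (ul (symMat a) (i + 1) (j + 1)).rank =
      (ul (symMat (schur a)) i j).rank + 1 := by
    intro i j
    rw [rank_ul_succ _ h]
    congr 2
    ext i j
    simp only [ul, symMat, schur, Matrix.submatrix_apply, Matrix.of_apply, Sym2.lift_mk]
    rw [Sym2.eq_swap (a := i.1.succ) (b := 0)]
  constructor
  · intro ha i j hi hj
    have := ha (i + 1) (j + 1) (by omega) (by omega)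
    rw [key, rank_perm_succ] at this
    omega
  · intro ha i j hi hj
    rcases i with _ | i
    · rw [rank_ul_zero_left]; exact Nat.zero_le _
    rcases j with _ | j
    · rw [rank_ul_zero_right]; exact Nat.zero_le _
    rw [key, rank_perm_succ]
    have := ha i j (by omega) (by omega)
    omega

end Pool.Agent.K7.H25.OG
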