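import Pool.Agent.K7.H25.OG.Codim

/-!
# Orthogonal Grothendieck polynomials and their stable limits
-/

set_option autoImplicit false
set_option linter.unusedSectionVars false
set_option linter.unnecessarySeqFocus false

namespace Pool.Agent.K7.H25.OG

open Finset MvPolynomial

/-- The coefficient ring `ℤ[β, β⁻¹]`. -/
abbrev LZ : Type := LaurentPolynomial ℤ

/-- The indeterminate `β`. -/
noncomputable def bet : LZ := LaurentPolynomial.T 1

/-- `(-β)^{-c}`. -/
noncomputable def negBetInv (c : ℕ) : LZ := (-1) ^ c * LaurentPolynomial.T (-(c : ℤ))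

/-- The orthogonal Grothendieck polynomial `(-β)^{-c} [MX_z]_T |_{a_i = 1 + β x_i}` of `z`,
with the variables `x_0, x_1, …` (the first coordinate has the index `0`). -/
noncomputable def GO {n : ℕ} (z : Equiv.Perm (Fin n)) : MvPolynomial ℕ LZ :=
  C (negBetInv (codim z)) * aeval (fun i : Fin n => 1 + C bet * X (i : ℕ)) (Kp z)

/-- The permutation `1^m × z` of `{0, …, m + n - 1}`: it fixes the first `m` elements and acts on
the last `n` elements as `z`. -/
def shift {n : ℕ} (m : ℕ) (z : Equiv.Perm (Fin n)) : Equiv.Perm (Fin (m + n)) :=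
  finSumFinEquiv.permCongr (Equiv.Perm.sumCongr (Equiv.refl (Fin m)) z)

theorem shift_castAdd {n : ℕ} (m : ℕ) (z : Equiv.Perm (Fin n)) (i : Fin m) :
    shift m z (Fin.castAdd n i) = Fin.castAdd n i := by
  rw [shift, Equiv.permCongr_apply, finSumFinEquiv_symm_apply_castAdd]
  simp

theorem shift_natAdd {n : ℕ} (m : ℕ) (z : Equiv.Perm (Fin n)) (j : Fin n) :
    shift m z (Fin.natAdd m j) = Fin.natAdd m (z j) := by
  rw [shift, Equiv.permCongr_apply, finSumFinEquiv_symm_apply_natAdd]
  simp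

variable {N : ℕ}

/-- the substitution `a_i = 1 + β x_i` -/
noncomputable def sub (N : ℕ) : MvPolynomial (Fin N) ℤ →+* MvPolynomial (Fin N) LZ :=
  (aeval (fun i : Fin N => (1 + C bet * X i : MvPolynomial (Fin N) LZ)) :
    MvPolynomial (Fin N) ℤ →ₐ[ℤ] MvPolynomial (Fin N) LZ)

theorem sub_X (i : Fin N) : sub N (X i) = 1 + C bet * X i := by
  rw [sub, RingHom.coe_coe, aeval_X]

theorem hom_ext_int {σ A : Type} [CommRing A] {f g : MvPolynomial σ ℤ →+* A}
    (h : ∀ i, f (X i) = g (X i)) : f = g := by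
  apply MvPolynomial.ringHom_ext
  · intro c
    rw [show (C c : MvPolynomial σ ℤ) = ((c : ℤ) : MvPolynomial σ ℤ) from by simp,
      map_intCast, map_intCast]
  · exact h

theorem rename_sub (π : Equiv.Perm (Fin N)) (P : MvPolynomial (Fin N) ℤ) :
    rename π (sub N P) = sub N (rename π P) := by
  have h : ((rename π : MvPolynomial (Fin N) LZ →ₐ[LZ] MvPolynomial (Fin N) LZ) :
      MvPolynomial (Fin N) LZ →+* MvPolynomial (Fin N) LZ).comp (sub N) =
      (sub N).comp ((rename π : MvPolynomial (Fin N) ℤ →ₐ[ℤ] MvPolynomial (Fin N) ℤ) :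
        MvPolynomial (Fin N) ℤ →+* MvPolynomial (Fin N) ℤ) := by
    apply hom_ext_int
    intro i
    rw [RingHom.comp_apply, RingHom.comp_apply, sub_X, RingHom.coe_coe, RingHom.coe_coe,
      rename_X, sub_X, map_add, map_one, map_mul, rename_C, rename_X]
  exact RingHom.congr_fun h P

theorem GO_eq (z : Equiv.Perm (Fin N)) :
    GO z = C (negBetInv (codim z)) * rename Fin.val (sub N (Kp z)) := by
  rw [GO]
  congr 1
  have h : ((rename Fin.val : MvPolynomial (Fin N) LZ →ₐ[LZ] MvPolynomial ℕ LZ) :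
      MvPolynomial (Fin N) LZ →+* MvPolynomial ℕ LZ).comp (sub N) =
      ((aeval (fun i : Fin N => (1 + C bet * X (i : ℕ) : MvPolynomial ℕ LZ)) :
        MvPolynomial (Fin N) ℤ →ₐ[ℤ] MvPolynomial ℕ LZ) :
        MvPolynomial (Fin N) ℤ →+* MvPolynomial ℕ LZ) := by
    apply hom_ext_int
    intro i
    rw [RingHom.comp_apply, sub_X, RingHom.coe_coe, RingHom.coe_coe, aeval_X, map_add, map_one,
      map_mul, rename_C, rename_X]
  exact (RingHom.congr_fun h (Kp z)).symm

/-- the substitution `x_0 = 0` -/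
noncomputable def s0 (N : ℕ) : MvPolynomial (Fin (N + 1)) LZ →+* MvPolynomial (Fin N) LZ :=
  (Polynomial.evalRingHom 0).comp (finSuccEquiv LZ N : _ →+* _)

theorem s0_apply (G : MvPolynomial (Fin (N + 1)) LZ) :
    s0 N G = (finSuccEquiv LZ N G).eval 0 := rfl

theorem coeff_s0 (G : MvPolynomial (Fin (N + 1)) LZ) (α : Fin N →₀ ℕ) :
    coeff α (s0 N G) = coeff (α.cons 0) G := by
  rw [s0_apply, ← Polynomial.coeff_zero_eq_eval_zero, finSuccEquiv_coeff_coeff]

theorem s0_C (c : LZ) : s0 N (C c) = C c := by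
  rw [s0_apply, ← algebraMap_eq, AlgEquiv.commutes]
  simp

theorem s0_sub (P : MvPolynomial (Fin (N + 1)) ℤ) : s0 N (sub (N + 1) P) = sub N (sp N P) := by
  have h : (s0 N).comp (sub (N + 1)) = (sub N).comp (sp N) := by
    apply hom_ext_int
    intro i
    rw [RingHom.comp_apply, RingHom.comp_apply, sub_X, map_add, map_one, map_mul, s0_C]
    refine Fin.cases ?_ (fun i => ?_) i
    · rw [sp_X_zero, map_one, s0_apply, finSuccEquiv_X_zero, Polynomial.eval_X, mul_zero,
        add_zero]
    · rw [sp_X_succ, sub_X, s0_apply, finSuccEquiv_X_succ, Polynomial.eval_C]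
  exact RingHom.congr_fun h P

theorem coeff_cons (z : Equiv.Perm (Fin N)) (α : Fin N →₀ ℕ) :
    coeff (α.cons 0) (sub (N + 1) (Kp (oneTimes z))) = coeff α (sub N (Kp z)) := by
  rw [← coeff_s0, s0_sub, sp_Kp]

/-- the exponent vector in the first `N` variables -/
noncomputable def res (N : ℕ) (α : ℕ →₀ ℕ) : Fin N →₀ ℕ :=
  α.comapDomain Fin.val (Fin.val_injective.injOn)

theorem res_apply (α : ℕ →₀ ℕ) (i : Fin N) : res N α i = α i := rfl

theorem mapDomain_res {α : ℕ →₀ ℕ} (h : ∀ i, N ≤ i → α i = 0) :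
    (res N α).mapDomain Fin.val = α := by
  ext i
  by_cases hi : i < N
  · rw [show i = ((⟨i, hi⟩ : Fin N) : ℕ) from rfl, Finsupp.mapDomain_apply Fin.val_injective]
    rfl
  · rw [h i (not_lt.1 hi), Finsupp.mapDomain_of_notMem_range]
    rintro ⟨j, hj⟩
    exact hi (hj ▸ j.2)

theorem coeff_step {n : ℕ} (z : Equiv.Perm (Fin n)) {m : ℕ} {α : ℕ →₀ ℕ}
    (h : ∀ i, m ≤ i → α i = 0) :
    coeff α (rename Fin.val (sub (n + (m + 1)) (Kp (oneX (m + 1) z)))) =
      coeff α (rename Fin.val (sub (n + m) (Kp (oneX m z)))) := by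
  conv_lhs => rw [← mapDomain_res (N := n + (m + 1)) (α := α) (fun i hi => h i (by omega))]
  conv_rhs => rw [← mapDomain_res (N := n + m) (α := α) (fun i hi => h i (by omega))]
  rw [coeff_rename_mapDomain _ Fin.val_injective, coeff_rename_mapDomain _ Fin.val_injective]
  let i0 : Fin (n + m + 1) := ⟨m, by omega⟩
  let π : Equiv.Perm (Fin (n + m + 1)) := Fin.cycleRange i0
  have hπ : ∀ k : Fin (n + (m + 1)), m + 1 ≤ (k : ℕ) → π k = k := by
    intro k hk
    exact Fin.cycleRange_of_gt (by rw [Fin.lt_def]; change m < (k : ℕ); omega)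
  have h1 := Kp_oneX_symm z (m + 1) hπ
  have h2 : (res (n + (m + 1)) α).mapDomain π = (res (n + m) α).cons 0 := by
    ext j
    have h3 : j = π (π.symm j) := by simp
    conv_lhs => rw [h3]
    rw [Finsupp.mapDomain_apply π.injective]
    refine Fin.cases ?_ (fun k => ?_) j
    · rw [Finsupp.cons_zero, Fin.cycleRange_symm_zero, res_apply]
      exact h m le_rfl
    · rw [Finsupp.cons_succ, Fin.cycleRange_symm_succ, res_apply, res_apply]
      by_cases hk : (k : ℕ) < m
      · rw [Fin.succAbove_of_castSucc_lt _ _ (by rw [Fin.lt_def]; exact hk)]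
        rfl
      · rw [Fin.succAbove_of_le_castSucc _ _ (by rw [Fin.le_def]; exact not_lt.1 hk)]
        rw [h k (not_lt.1 hk)]
        exact h _ (by rw [Fin.val_succ]; omega)
  have h3 := coeff_cons (oneX m z) (res (n + m) α)
  rw [← h3, ← h2, ← oneX_succ]
  conv_rhs => rw [← h1, ← rename_sub]
  exact (coeff_rename_mapDomain _ π.injective _ _).symm

theorem convergence {n : ℕ} (z : Equiv.Perm (Fin n)) (α : ℕ →₀ ℕ) :
    ∃ M, ∀ m, M ≤ m → coeff α (GO (oneX m z)) = coeff α (GO (oneX M z)) := by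
  obtain ⟨M₀, hM₀⟩ := codim_eventually z
  obtain ⟨k, hk⟩ : ∃ k, ∀ i, k ≤ i → α i = 0 := by
    refine ⟨α.support.sup id + 1, fun i hi => ?_⟩
    by_contra h
    have := Finset.le_sup (f := id) (Finsupp.mem_support_iff.2 h)
    simp only [id] at this
    omega
  refine ⟨max M₀ k, fun m hm => ?_⟩
  induction m, hm using Nat.le_induction with
  | base => rfl
  | succ m hm ih =>
    rw [← ih, GO_eq, GO_eq, coeff_C_mul, coeff_C_mul, hM₀ (m + 1) (by omega), hM₀ m (by omega),
      coeff_step z (fun i hi => hk i (by omega))]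

theorem GO_congr {N N' : ℕ} (h : N = N') (w : Equiv.Perm (Fin N)) (w' : Equiv.Perm (Fin N'))
    (hw : ∀ i : Fin N, ((w' (Fin.cast h i) : Fin N') : ℕ) = w i) : GO w = GO w' := by
  subst h
  congr 1
  ext i
  exact (hw i).symm

theorem oneX_small {n : ℕ} (z : Equiv.Perm (Fin n)) : ∀ (m : ℕ) (k : Fin (n + m)),
    (k : ℕ) < m → ((oneX m z k : Fin (n + m)) : ℕ) = k := by
  intro m
  induction m with
  | zero => intro k hk; omega
  | succ m ih =>
    intro k hk
    change ((oneTimes (oneX m z) k : Fin (n + m + 1)) : ℕ) = k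
    revert hk
    refine Fin.cases ?_ (fun k => ?_) (k : Fin (n + m + 1))
    · intro _; rw [oneTimes_zero]
    · intro hk
      rw [oneTimes_succ, Fin.val_succ, Fin.val_succ, ih k (by rw [Fin.val_succ] at hk; omega)]

theorem oneX_large {n : ℕ} (z : Equiv.Perm (Fin n)) : ∀ (m : ℕ) (k : Fin (n + m)) (j : Fin n),
    (k : ℕ) = m + j → ((oneX m z k : Fin (n + m)) : ℕ) = m + z j := by
  intro m
  induction m with
  | zero =>
    intro k j hk
    have : k = j := Fin.ext (by omega)
    rw [this]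
    change ((z j : Fin n) : ℕ) = _
    omega
  | succ m ih =>
    intro k j hk
    change ((oneTimes (oneX m z) k : Fin (n + m + 1)) : ℕ) = _
    revert hk
    refine Fin.cases ?_ (fun k => ?_) (k : Fin (n + m + 1))
    · intro hk; rw [Fin.val_zero] at hk; omega
    · intro hk
      rw [oneTimes_succ, Fin.val_succ, ih k j (by rw [Fin.val_succ] at hk; omega)]
      omega

theorem GO_shift {n : ℕ} (m : ℕ) (z : Equiv.Perm (Fin n)) : GO (shift m z) = GO (oneX m z) := by
  apply GO_congr (add_comm m n)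
  intro i
  refine Fin.addCases (fun i => ?_) (fun j => ?_) i
  · rw [shift_castAdd, oneX_small z m _ (by simp)]
    rfl
  · rw [shift_natAdd, oneX_large z m _ j (by simp [add_comm])]
    rfl

end Pool.Agent.K7.H25.OG
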