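import Pool.Agent.K7.H25.OG.Lead

/-!
# Hilbert functions of sets of points; cylinders
-/

set_option autoImplicit false
set_option linter.unusedSectionVars false

namespace Pool.Agent.K7.H25.OG

open Finset MvPolynomial

section lin

variable {M N P : Type} [AddCommGroup M] [Module ℂ M] [AddCommGroup N] [Module ℂ N]
  [AddCommGroup P] [Module ℂ P]

theorem finrank_map_eq (f : M →ₗ[ℂ] N) (g : M →ₗ[ℂ] P) (p : Submodule ℂ M)
    (h : ∀ x ∈ p, f x = 0 ↔ g x = 0) :
    Module.finrank ℂ (p.map f) = Module.finrank ℂ (p.map g) := by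
  have h1 : LinearMap.ker (f.domRestrict p) = LinearMap.ker (g.domRestrict p) := by
    ext ⟨x, hx⟩
    simp only [LinearMap.mem_ker, LinearMap.domRestrict_apply]
    exact h x hx
  have h2 : LinearMap.range (f.domRestrict p) = p.map f := LinearMap.range_domRestrict _ _
  have h3 : LinearMap.range (g.domRestrict p) = p.map g := LinearMap.range_domRestrict _ _
  rw [← h2, ← h3, ← (f.domRestrict p).quotKerEquivRange.finrank_eq,
    ← (g.domRestrict p).quotKerEquivRange.finrank_eq, h1]

end lin

variable {τ ι : Type} [Fintype τ] [DecidableEq τ]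

/-- restriction of polynomial functions to a set -/
noncomputable def ev (V : Set (τ → ℂ)) : MvPolynomial τ ℂ →ₗ[ℂ] (V → ℂ) where
  toFun F := fun v => eval v.1 F
  map_add' F G := by funext v; simp
  map_smul' c F := by funext v; simp

theorem ev_apply (V : Set (τ → ℂ)) (F : MvPolynomial τ ℂ) (v : V) : ev V F v = eval v.1 F := rfl

theorem ev_eq_zero {V : Set (τ → ℂ)} {F : MvPolynomial τ ℂ} :
    ev V F = 0 ↔ ∀ v ∈ V, eval v F = 0 := by
  constructor
  · intro h v hv
    exact congrFun h ⟨v, hv⟩
  · intro h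
    funext v
    exact h v.1 v.2

/-- the Hilbert function of a set of points -/
noncomputable def hv (wt : τ → (ι →₀ ℕ)) (V : Set (τ → ℂ)) (w : ι →₀ ℕ) : ℕ :=
  Module.finrank ℂ ((weightedHomogeneousSubmodule ℂ wt w).map (ev V))

theorem hf_vanishingIdeal (wt : τ → (ι →₀ ℕ)) (V : Set (τ → ℂ)) (w : ι →₀ ℕ) :
    hf wt (vanishingIdeal ℂ V) w = hv wt V w := by
  refine finrank_map_eq _ _ _ fun F _ => ?_
  rw [ev_eq_zero]
  refine Ideal.Quotient.eq_zero_iff_mem.trans ?_
  rw [mem_vanishingIdeal_iff]
  rfl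

variable {wt : τ → (ι →₀ ℕ)}

theorem finite_ws (hwt : ∀ s, wt s ≠ 0) (w : ι →₀ ℕ) :
    Module.Finite ℂ (weightedHomogeneousSubmodule ℂ wt w) := by
  have h : weightedHomogeneousSubmodule ℂ wt w ≤
      Submodule.span ℂ ((fun μ => MvPolynomial.monomial μ (1 : ℂ)) ''
        {μ | Finsupp.weight wt μ = w}) := by
    intro F hF
    rw [← MvPolynomial.support_sum_monomial_coeff F]
    refine Submodule.sum_mem _ fun ν hν => ?_
    have h4 : MvPolynomial.monomial ν (F.coeff ν) =
        F.coeff ν • MvPolynomial.monomial ν (1 : ℂ) := by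
      rw [smul_monomial, smul_eq_mul, mul_one]
    rw [h4]
    exact Submodule.smul_mem _ _ (Submodule.subset_span ⟨ν, weight_of_mem hF hν, rfl⟩)
  have hfin : Module.Finite ℂ (Submodule.span ℂ ((fun μ => MvPolynomial.monomial μ (1 : ℂ)) ''
        {μ | Finsupp.weight wt μ = w})) :=
    Module.Finite.span_of_finite ℂ ((finite_weight hwt w).image _)
  exact Submodule.finiteDimensional_of_le h

theorem exists_div {s : τ} {w : ι →₀ ℕ} {F : MvPolynomial τ ℂ}
    (hF : F ∈ weightedHomogeneousSubmodule ℂ wt w) :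
    ∃ A B : MvPolynomial τ ℂ, F = X s * A + B ∧
      (wt s ≤ w → A ∈ weightedHomogeneousSubmodule ℂ wt (w - wt s)) ∧ (¬ wt s ≤ w → A = 0) ∧
      ∀ (v : τ → ℂ) (c : ℂ), eval (Function.update v s c) B = eval v B := by
  refine ⟨F.divMonomial (Finsupp.single s 1), F.modMonomial (Finsupp.single s 1), ?_, ?_, ?_, ?_⟩
  · rw [X, MvPolynomial.divMonomial_add_modMonomial]
  · intro h μ hμ
    rw [coeff_divMonomial] at hμ
    have h1 := hF hμ
    rw [map_add, Finsupp.weight_single, one_smul] at h1
    rw [← h1, add_tsub_cancel_left]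
  · intro h
    ext μ
    rw [coeff_divMonomial, coeff_zero]
    by_contra hμ
    have h1 := hF hμ
    rw [map_add, Finsupp.weight_single, one_smul] at h1
    apply h
    rw [← h1]
    exact le_self_add
  · intro v c
    rw [eval_eq, eval_eq]
    refine Finset.sum_congr rfl fun μ hμ => ?_
    have h0 : μ s = 0 := by
      by_contra h0
      have h1 : Finsupp.single s 1 ≤ μ := by
        rw [Finsupp.single_le_iff]; omega
      exact mem_support_iff.1 hμ (coeff_modMonomial_of_le F h1)
    congr 1
    refine Finset.prod_congr rfl fun t ht => ?_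
    have : t ≠ s := by
      rintro rfl
      exact (Finsupp.mem_support_iff.1 ht) h0
    rw [Function.update_of_ne this]

theorem eval_update_zero {V : Set (τ → ℂ)} {s : τ}
    (hV : ∀ v ∈ V, ∀ c : ℂ, Function.update v s c ∈ V) {F : MvPolynomial τ ℂ}
    (h : ∀ v ∈ V, v s * eval v F = 0) : ∀ v ∈ V, eval v F = 0 := by
  intro v hv
  -- the polynomial in one variable
  let p : Polynomial ℂ := eval₂ Polynomial.C (Function.update (fun t => Polynomial.C (v t)) s
    Polynomial.X) F
  have hp : ∀ c : ℂ, p.eval c = eval (Function.update v s c) F := by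
    intro c
    have : (Polynomial.evalRingHom c) p = eval (Function.update v s c) F := by
      change (Polynomial.evalRingHom c) (eval₂ _ _ F) = _
      rw [MvPolynomial.hom_eval₂, MvPolynomial.eval]
      congr 1
      · ext x; simp
      · funext t
        by_cases ht : t = s
        · subst ht; simp
        · simp [Function.update_of_ne ht]
    exact this
  have hp0 : Polynomial.X * p = 0 := by
    apply Polynomial.funext
    intro c
    rw [Polynomial.eval_mul, Polynomial.eval_X, Polynomial.eval_zero, hp]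
    have := h _ (hV v hv c)
    rwa [Function.update_self] at this
  have hp1 : p = 0 := by
    rcases mul_eq_zero.1 hp0 with h1 | h1
    · exact absurd h1 Polynomial.X_ne_zero
    · exact h1
  have := hp (v s)
  rw [hp1, Polynomial.eval_zero, Function.update_eq_self] at this
  exact this.symm

/-- multiplication by a coordinate -/
noncomputable def mulc (V : Set (τ → ℂ)) (s : τ) : (V → ℂ) →ₗ[ℂ] (V → ℂ) where
  toFun f := fun v => v.1 s * f v
  map_add' f g := by funext v; simp [mul_add]
  map_smul' c f := by funext v; simp [mul_left_comm]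

theorem hv_cyl (hwt : ∀ s, wt s ≠ 0) {V : Set (τ → ℂ)} {s : τ}
    (hV : ∀ v ∈ V, ∀ c : ℂ, Function.update v s c ∈ V) (w : ι →₀ ℕ) [Decidable (wt s ≤ w)] :
    hv wt V w = hv wt {v ∈ V | v s = 0} w + if wt s ≤ w then hv wt V (w - wt s) else 0 := by
  set V0 : Set (τ → ℂ) := {v ∈ V | v s = 0} with hV0
  let r : (V → ℂ) →ₗ[ℂ] (V0 → ℂ) := LinearMap.funLeft ℂ ℂ (fun v => ⟨v.1, v.2.1⟩)
  have hr : ∀ F, r (ev V F) = ev V0 F := fun F => rfl
  set E : Submodule ℂ (V → ℂ) := (weightedHomogeneousSubmodule ℂ wt w).map (ev V) with hE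
  have := finite_ws hwt w
  have hEfin : Module.Finite ℂ E := by rw [hE]; infer_instance
  have h1 := (r.domRestrict E).finrank_range_add_finrank_ker
  have h2 : LinearMap.range (r.domRestrict E) =
      (weightedHomogeneousSubmodule ℂ wt w).map (ev V0) := by
    rw [LinearMap.range_domRestrict, hE, ← Submodule.map_comp]
    rfl
  have h3 : Module.finrank ℂ (LinearMap.ker (r.domRestrict E)) =
      Module.finrank ℂ (E ⊓ LinearMap.ker r : Submodule ℂ (V → ℂ)) := by
    have h4 : (LinearMap.ker (r.domRestrict E)).map E.subtype = E ⊓ LinearMap.ker r := by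
      ext f
      simp only [Submodule.mem_map, LinearMap.mem_ker, LinearMap.domRestrict_apply,
        Submodule.subtype_apply, Subtype.exists, Submodule.mem_inf]
      constructor
      · rintro ⟨g, hg, h5, rfl⟩; exact ⟨hg, h5⟩
      · rintro ⟨h5, h6⟩; exact ⟨f, h5, h6, rfl⟩
    rw [← h4]
    exact LinearEquiv.finrank_eq (Submodule.equivMapOfInjective E.subtype
      E.injective_subtype (LinearMap.ker (r.domRestrict E)))
  have key : ∀ F ∈ weightedHomogeneousSubmodule ℂ wt w, ev V0 F = 0 →
      ∃ A : MvPolynomial τ ℂ, (wt s ≤ w → A ∈ weightedHomogeneousSubmodule ℂ wt (w - wt s)) ∧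
        (¬ wt s ≤ w → A = 0) ∧ ev V F = mulc V s (ev V A) := by
    intro F hF h0
    obtain ⟨A, B, hAB, h5, h6, h7⟩ := exists_div (s := s) hF
    refine ⟨A, h5, h6, ?_⟩
    funext v
    change eval v.1 F = v.1 s * eval v.1 A
    have h8 : eval v.1 B = 0 := by
      rw [← h7 v.1 0]
      have h9 := ev_eq_zero.1 h0 (Function.update v.1 s 0) ⟨hV v.1 v.2 0, by simp⟩
      rw [hAB, map_add, map_mul, eval_X, Function.update_self, zero_mul, zero_add] at h9
      exact h9
    rw [hAB, map_add, map_mul, eval_X, h8, add_zero]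
  have h5 : Module.finrank ℂ (E ⊓ LinearMap.ker r : Submodule ℂ (V → ℂ)) =
      if wt s ≤ w then hv wt V (w - wt s) else 0 := by
    split_ifs with hs
    · have h6 : (E ⊓ LinearMap.ker r : Submodule ℂ (V → ℂ)) =
          (weightedHomogeneousSubmodule ℂ wt (w - wt s)).map (mulc V s ∘ₗ ev V) := by
        ext f
        simp only [Submodule.mem_inf, LinearMap.mem_ker, Submodule.mem_map, hE]
        constructor
        · rintro ⟨⟨F, hF, rfl⟩, h0⟩
          obtain ⟨A, hA, -, h7⟩ := key F hF h0
          exact ⟨A, hA hs, h7.symm⟩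
        · rintro ⟨A, hA, rfl⟩
          refine ⟨⟨X s * A, ?_, ?_⟩, ?_⟩
          · have h7 := (isWeightedHomogeneous_X ℂ wt s).mul hA
            rwa [add_tsub_cancel_of_le hs] at h7
          · funext v
            change eval v.1 (X s * A) = v.1 s * eval v.1 A
            rw [map_mul, eval_X]
          · funext v
            change v.1 s * eval v.1 A = 0
            rw [v.2.2, zero_mul]
      rw [h6]
      refine finrank_map_eq _ _ _ fun F hF => ?_
      rw [ev_eq_zero]
      constructor
      · intro h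
        exact eval_update_zero hV fun v hv => congrFun h ⟨v, hv⟩
      · intro h
        funext v
        change v.1 s * eval v.1 F = 0
        rw [h v.1 v.2, mul_zero]
    · have h6 : (E ⊓ LinearMap.ker r : Submodule ℂ (V → ℂ)) = ⊥ := by
        rw [Submodule.eq_bot_iff]
        rintro f ⟨⟨F, hF, rfl⟩, h0⟩
        obtain ⟨A, -, hA, h7⟩ := key F hF h0
        rw [h7, hA hs, map_zero, map_zero]
      rw [h6, finrank_bot]
  rw [h3, h5, h2] at h1
  exact h1.symm

/-- the Hilbert series of a set of points -/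
noncomputable def sv (wt : τ → (ι →₀ ℕ)) (V : Set (τ → ℂ)) : MvPowerSeries ι ℤ :=
  fun w => (hv wt V w : ℤ)

theorem coeff_sv (V : Set (τ → ℂ)) (w : ι →₀ ℕ) :
    MvPowerSeries.coeff w (sv wt V) = (hv wt V w : ℤ) := rfl

theorem hs_vanishingIdeal (wt : τ → (ι →₀ ℕ)) (V : Set (τ → ℂ)) :
    hs wt (vanishingIdeal ℂ V) = sv wt V := by
  ext w
  rw [coeff_hs, coeff_sv, hf_vanishingIdeal]

theorem sv_cyl (hwt : ∀ s, wt s ≠ 0) {V : Set (τ → ℂ)} {s : τ}
    (hV : ∀ v ∈ V, ∀ c : ℂ, Function.update v s c ∈ V) :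
    sv wt V * (1 - MvPowerSeries.monomial (wt s) 1) = sv wt {v ∈ V | v s = 0} := by
  classical
  ext w
  rw [mul_sub, mul_one, map_sub, mul_comm, MvPowerSeries.coeff_monomial_mul, coeff_sv, coeff_sv,
    coeff_sv, hv_cyl hwt hV w]
  split_ifs <;> simp

theorem sv_cyls (hwt : ∀ s, wt s ≠ 0) {V : Set (τ → ℂ)} (J : Finset τ)
    (hV : ∀ s ∈ J, ∀ v ∈ V, ∀ c : ℂ, Function.update v s c ∈ V) :
    sv wt V * ∏ s ∈ J, (1 - MvPowerSeries.monomial (wt s) 1) =
      sv wt {v ∈ V | ∀ s ∈ J, v s = 0} := by
  induction J using Finset.induction_on with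
  | empty => simp
  | insert s J hs ih =>
    rw [Finset.prod_insert hs, mul_comm (1 - _), ← mul_assoc,
      ih (fun t ht => hV t (Finset.mem_insert_of_mem ht)), sv_cyl hwt]
    · congr 1
      ext v
      simp only [Set.mem_ofPred_eq, Finset.mem_insert, forall_eq_or_imp]
      tauto
    · rintro v ⟨h1, h2⟩ c
      refine ⟨hV s (Finset.mem_insert_self _ _) v h1 c, fun t ht => ?_⟩
      have : t ≠ s := by rintro rfl; exact hs ht
      rw [Function.update_of_ne this]
      exact h2 t ht

end Pool.Agent.K7.H25.OG
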