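import Mathlib

/-!
# Generating series of sets of exponent vectors, and K-polynomials of monomial ideals
-/

set_option autoImplicit false
set_option linter.unusedSectionVars false

namespace Pool.Agent.K7.H25.OG

open Finset

variable {τ ι : Type} [Fintype τ] [DecidableEq τ]

/-- the generating series, by weight, of a set of exponent vectors -/
noncomputable def gs (wt : τ → (ι →₀ ℕ)) (D : Set (τ →₀ ℕ)) : MvPowerSeries ι ℤ :=
  fun w => (({μ | μ ∈ D ∧ Finsupp.weight wt μ = w}.ncard : ℕ) : ℤ)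

variable {wt : τ → (ι →₀ ℕ)}

theorem coeff_gs (D : Set (τ →₀ ℕ)) (w : ι →₀ ℕ) :
    MvPowerSeries.coeff w (gs wt D) =
      (({μ | μ ∈ D ∧ Finsupp.weight wt μ = w}.ncard : ℕ) : ℤ) := rfl

theorem le_weight (hwt : ∀ s, wt s ≠ 0) (μ : τ →₀ ℕ) (s : τ) :
    μ s ≤ (Finsupp.weight wt μ).degree := by
  have h1 : Finsupp.weight wt μ = ∑ t, μ t • wt t := by
    rw [Finsupp.weight_apply, Finsupp.sum_fintype]
    intro i; simp
  rw [h1, map_sum]
  have h2 : 1 ≤ (wt s).degree := by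
    by_contra h
    have : (wt s).degree = 0 := by omega
    exact hwt s ((Finsupp.degree_eq_zero_iff _).1 this)
  calc μ s ≤ μ s * (wt s).degree := Nat.le_mul_of_pos_right _ h2
    _ = (μ s • wt s).degree := by simp
    _ ≤ _ := Finset.single_le_sum (f := fun t => (μ t • wt t).degree)
        (fun _ _ => Nat.zero_le _) (Finset.mem_univ s)

theorem finite_weight (hwt : ∀ s, wt s ≠ 0) (w : ι →₀ ℕ) :
    {μ : τ →₀ ℕ | Finsupp.weight wt μ = w}.Finite := by
  refine (Set.finite_Iic (Finsupp.equivFunOnFinite.symm (fun _ : τ => w.degree))).subset ?_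
  intro μ hμ
  rw [Set.mem_ofPred_eq] at hμ
  intro s
  simp only [Finsupp.equivFunOnFinite_symm_apply_apply]
  rw [← hμ]
  exact le_weight hwt μ s

theorem finite_gs (hwt : ∀ s, wt s ≠ 0) (D : Set (τ →₀ ℕ)) (w : ι →₀ ℕ) :
    {μ : τ →₀ ℕ | μ ∈ D ∧ Finsupp.weight wt μ = w}.Finite :=
  (finite_weight hwt w).subset fun _ h => h.2

theorem gs_union (hwt : ∀ s, wt s ≠ 0) (D E : Set (τ →₀ ℕ)) :
    gs wt (D ∪ E) + gs wt (D ∩ E) = gs wt D + gs wt E := by
  ext w
  rw [map_add, map_add, coeff_gs, coeff_gs, coeff_gs, coeff_gs]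
  have h := Set.ncard_union_add_ncard_inter {μ | μ ∈ D ∧ Finsupp.weight wt μ = w}
    {μ | μ ∈ E ∧ Finsupp.weight wt μ = w} (finite_gs hwt D w) (finite_gs hwt E w)
  have h1 : {μ | μ ∈ D ∪ E ∧ Finsupp.weight wt μ = w} =
      {μ | μ ∈ D ∧ Finsupp.weight wt μ = w} ∪ {μ | μ ∈ E ∧ Finsupp.weight wt μ = w} := by
    ext μ; simp only [Set.mem_union, Set.mem_ofPred_eq]; tauto
  have h2 : {μ | μ ∈ D ∩ E ∧ Finsupp.weight wt μ = w} =
      {μ | μ ∈ D ∧ Finsupp.weight wt μ = w} ∩ {μ | μ ∈ E ∧ Finsupp.weight wt μ = w} := by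
    ext μ; simp only [Set.mem_inter_iff, Set.mem_ofPred_eq]; tauto
  rw [h1, h2]
  exact_mod_cast h

theorem gs_empty : gs wt (∅ : Set (τ →₀ ℕ)) = 0 := by
  ext w
  rw [coeff_gs]
  simp

/-- translation of a set of exponents -/
theorem gs_translate (ν : τ →₀ ℕ) (D : Set (τ →₀ ℕ)) :
    gs wt ((fun μ => ν + μ) '' D) = MvPowerSeries.monomial (Finsupp.weight wt ν) 1 * gs wt D := by
  classical
  ext w
  rw [MvPowerSeries.coeff_monomial_mul, coeff_gs]
  split_ifs with h
  · rw [coeff_gs, one_mul]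
    congr 1
    have : {μ | μ ∈ (fun μ => ν + μ) '' D ∧ Finsupp.weight wt μ = w} =
        (fun μ => ν + μ) '' {μ | μ ∈ D ∧ Finsupp.weight wt μ = w - Finsupp.weight wt ν} := by
      ext μ
      simp only [Set.mem_image, Set.mem_ofPred_eq]
      constructor
      · rintro ⟨⟨μ, hμ, rfl⟩, h2⟩
        refine ⟨μ, ⟨hμ, ?_⟩, rfl⟩
        rw [← h2, map_add, add_tsub_cancel_left]
      · rintro ⟨μ, ⟨hμ, h2⟩, rfl⟩
        refine ⟨⟨μ, hμ, rfl⟩, ?_⟩
        rw [map_add, h2, add_tsub_cancel_of_le h]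
    rw [this, Set.ncard_image_of_injective _ (add_right_injective ν)]
  · have : {μ | μ ∈ (fun μ => ν + μ) '' D ∧ Finsupp.weight wt μ = w} = ∅ := by
      rw [Set.eq_empty_iff_forall_notMem]
      rintro μ ⟨⟨μ, hμ, rfl⟩, h2⟩
      apply h
      rw [← h2, map_add]
      exact le_self_add
    rw [this]; simp

/-- exponents vanishing on `J` -/
def van (J : Finset τ) : Set (τ →₀ ℕ) := {μ | ∀ s ∈ J, μ s = 0}

theorem gs_van (hwt : ∀ s, wt s ≠ 0) (J : Finset τ) (s : τ) (hs : s ∉ J) :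
    gs wt (van J) * (1 - MvPowerSeries.monomial (wt s) 1) = gs wt (van (insert s J)) := by
  have h1 : van J = (fun μ => Finsupp.single s 1 + μ) '' van J ∪ van (insert s J) := by
    ext μ
    simp only [van, Set.mem_union, Set.mem_image, Set.mem_ofPred_eq, Finset.mem_insert,
      forall_eq_or_imp]
    constructor
    · intro h
      by_cases h0 : μ s = 0
      · exact Or.inr ⟨h0, h⟩
      · left
        refine ⟨μ - Finsupp.single s 1, ?_, ?_⟩
        · intro t ht
          rw [Finsupp.tsub_apply, h t ht, Nat.zero_sub]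
        · rw [add_tsub_cancel_of_le]
          rw [Finsupp.single_le_iff]
          omega
    · rintro (⟨μ, h, rfl⟩ | h)
      · intro t ht
        have : s ≠ t := by rintro rfl; exact hs ht
        simp [this, h t ht]
      · exact h.2
  have h2 : (fun μ => Finsupp.single s 1 + μ) '' van J ∩ van (insert s J) = ∅ := by
    rw [Set.eq_empty_iff_forall_notMem]
    rintro _ ⟨⟨μ, h, rfl⟩, h'⟩
    have := h' s (Finset.mem_insert_self _ _)
    simp at this
  have h3 := gs_union hwt ((fun μ => Finsupp.single s 1 + μ) '' van J) (van (insert s J))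
  rw [← h1, h2, gs_empty, add_zero, gs_translate] at h3
  have h4 : Finsupp.weight wt (Finsupp.single s 1) = wt s := by
    rw [Finsupp.weight_single]; simp
  rw [h4] at h3
  rw [mul_sub, mul_one, mul_comm (gs wt (van J))]
  rw [sub_eq_iff_eq_add, add_comm]
  exact h3

theorem gs_van_prod (hwt : ∀ s, wt s ≠ 0) (J : Finset τ) :
    gs wt Set.univ * ∏ s ∈ J, (1 - MvPowerSeries.monomial (wt s) 1) = gs wt (van J) := by
  induction J using Finset.induction_on with
  | empty =>
    simp only [Finset.prod_empty, mul_one]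
    congr 1
    ext μ
    simp [van]
  | insert s J hs ih =>
    rw [Finset.prod_insert hs, mul_comm (1 - _), ← mul_assoc, ih, gs_van hwt J s hs]

theorem gs_univ (hwt : ∀ s, wt s ≠ 0) :
    gs wt Set.univ * ∏ s, (1 - MvPowerSeries.monomial (wt s) 1) = 1 := by
  classical
  rw [gs_van_prod hwt]
  ext w
  rw [coeff_gs, MvPowerSeries.coeff_one]
  have h : van (Finset.univ : Finset τ) = {0} := by
    ext μ
    simp only [van, Finset.mem_univ, forall_const, Set.mem_ofPred_eq, Set.mem_singleton_iff]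
    constructor
    · intro h; ext s; simpa using h s
    · rintro rfl s; rfl
  rw [h]
  split_ifs with h0
  · have : {μ : τ →₀ ℕ | μ ∈ ({0} : Set (τ →₀ ℕ)) ∧ Finsupp.weight wt μ = w} = {0} := by
      ext μ
      simp only [Set.mem_singleton_iff, Set.mem_ofPred_eq]
      constructor
      · exact fun h => h.1
      · rintro rfl; exact ⟨rfl, by simp [h0]⟩
    rw [this]; simp
  · have : {μ : τ →₀ ℕ | μ ∈ ({0} : Set (τ →₀ ℕ)) ∧ Finsupp.weight wt μ = w} = ∅ := by
      rw [Set.eq_empty_iff_forall_notMem]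
      rintro μ ⟨h1, h2⟩
      rw [Set.mem_singleton_iff] at h1
      subst h1
      exact h0 (by rw [← h2]; simp)
    rw [this]; simp

/-- becomes a polynomial after multiplication by the product of the `1 - a ^ wt s` -/
def IsPol (wt : τ → (ι →₀ ℕ)) (F : MvPowerSeries ι ℤ) : Prop :=
  ∃ P : MvPolynomial ι ℤ, (P : MvPowerSeries ι ℤ) =
    F * ∏ s, (1 - MvPowerSeries.monomial (wt s) 1)

theorem IsPol.add {F G : MvPowerSeries ι ℤ} (hF : IsPol wt F) (hG : IsPol wt G) :
    IsPol wt (F + G) := by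
  obtain ⟨P, hP⟩ := hF
  obtain ⟨Q, hQ⟩ := hG
  exact ⟨P + Q, by rw [MvPolynomial.coe_add, hP, hQ]; ring⟩

theorem IsPol.sub {F G : MvPowerSeries ι ℤ} (hF : IsPol wt F) (hG : IsPol wt G) :
    IsPol wt (F - G) := by
  obtain ⟨P, hP⟩ := hF
  obtain ⟨Q, hQ⟩ := hG
  refine ⟨P - Q, ?_⟩
  have : ((P - Q : MvPolynomial ι ℤ) : MvPowerSeries ι ℤ) = (P : MvPowerSeries ι ℤ) - Q :=
    map_sub (MvPolynomial.coeToMvPowerSeries.ringHom) P Q
  rw [this, hP, hQ]; ring

theorem IsPol.zero : IsPol wt 0 := ⟨0, by simp⟩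

/-- the upper set generated by a finite set -/
def up (G : Finset (τ →₀ ℕ)) : Set (τ →₀ ℕ) := {μ | ∃ g ∈ G, g ≤ μ}

theorem isPol_single (hwt : ∀ s, wt s ≠ 0) (g : τ →₀ ℕ) :
    IsPol wt (gs wt {μ | g ≤ μ}) := by
  have h : {μ | g ≤ μ} = (fun μ => g + μ) '' Set.univ := by
    ext μ
    simp only [Set.mem_ofPred_eq, Set.image_univ, Set.mem_range]
    constructor
    · intro h; exact ⟨μ - g, add_tsub_cancel_of_le h⟩
    · rintro ⟨ν, rfl⟩; exact le_self_add
  refine ⟨MvPolynomial.monomial (Finsupp.weight wt g) 1, ?_⟩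
  rw [h, gs_translate, mul_assoc, gs_univ hwt, mul_one, MvPolynomial.coe_monomial]

theorem isPol_up (hwt : ∀ s, wt s ≠ 0) : ∀ (k : ℕ) (G : Finset (τ →₀ ℕ)), G.card ≤ k →
    IsPol wt (gs wt (up G)) := by
  classical
  intro k
  induction k with
  | zero =>
    intro G hG
    have : G = ∅ := by rw [← Finset.card_eq_zero]; omega
    subst this
    have : up (∅ : Finset (τ →₀ ℕ)) = ∅ := by
      ext μ; simp [up]
    rw [this, gs_empty]
    exact IsPol.zero
  | succ k ih =>
    intro G hG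
    by_cases h0 : G = ∅
    · exact ih G (by rw [h0]; simp)
    obtain ⟨g, hg⟩ := Finset.nonempty_iff_ne_empty.2 h0
    have hc : (G.erase g).card ≤ k := by rw [Finset.card_erase_of_mem hg]; omega
    have h1 : up G = up (G.erase g) ∪ {μ | g ≤ μ} := by
      ext μ
      simp only [up, Set.mem_union, Set.mem_ofPred_eq, Finset.mem_erase]
      constructor
      · rintro ⟨g', h1, h2⟩
        by_cases h : g' = g
        · right; rwa [h] at h2
        · exact Or.inl ⟨g', ⟨h, h1⟩, h2⟩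
      · rintro (⟨g', h1, h2⟩ | h)
        · exact ⟨g', h1.2, h2⟩
        · exact ⟨g, hg, h⟩
    have h2 : up (G.erase g) ∩ {μ | g ≤ μ} = up ((G.erase g).image fun g' => g' ⊔ g) := by
      ext μ
      simp only [up, Set.mem_inter_iff, Set.mem_ofPred_eq, Finset.mem_image]
      constructor
      · rintro ⟨⟨g', h1, h2⟩, h3⟩
        exact ⟨g' ⊔ g, ⟨g', h1, rfl⟩, sup_le h2 h3⟩
      · rintro ⟨_, ⟨g', h1, rfl⟩, h2⟩
        exact ⟨⟨g', h1, le_sup_left.trans h2⟩, le_sup_right.trans h2⟩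
    have h3 := gs_union hwt (up (G.erase g)) {μ | g ≤ μ}
    rw [← h1, h2] at h3
    have h4 : gs wt (up G) = gs wt (up (G.erase g)) + gs wt {μ | g ≤ μ} -
        gs wt (up ((G.erase g).image fun g' => g' ⊔ g)) := by
      rw [← h3]; ring
    rw [h4]
    exact ((ih _ hc).add (isPol_single hwt g)).sub (ih _ (Finset.card_image_le.trans hc))

/-- upper sets of exponents are finitely generated -/
theorem exists_up {L : Set (τ →₀ ℕ)} (hL : IsUpperSet L) :
    ∃ G : Finset (τ →₀ ℕ), L = up G := by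
  have hfin : {μ | Minimal (· ∈ L) μ}.Finite :=
    IsAntichain.finite_of_partiallyWellOrderedOn (r := (· ≤ ·)) (setOfPred_minimal_antichain _)
      (Set.isPWO_of_wellQuasiOrderedLE _)
  refine ⟨hfin.toFinset, ?_⟩
  ext μ
  simp only [up, Set.Finite.mem_toFinset, Set.mem_ofPred_eq]
  constructor
  · intro hμ
    obtain ⟨b, h1, h2⟩ := (Set.isPWO_of_wellQuasiOrderedLE L).exists_le_minimal hμ
    exact ⟨b, h2, h1⟩
  · rintro ⟨g, hg, h⟩
    exact hL h hg.prop

theorem isPol_compl (hwt : ∀ s, wt s ≠ 0) {L : Set (τ →₀ ℕ)} (hL : IsUpperSet L) :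
    IsPol wt (gs wt Lᶜ) := by
  obtain ⟨G, rfl⟩ := exists_up hL
  have h := gs_union hwt (up G)ᶜ (up G)
  rw [Set.compl_union_self, Set.compl_inter_self, gs_empty, add_zero] at h
  have h1 : gs wt (up G)ᶜ = gs wt Set.univ - gs wt (up G) := by rw [h]; ring
  rw [h1]
  refine IsPol.sub ⟨1, ?_⟩ (isPol_up hwt _ G le_rfl)
  rw [gs_univ hwt, MvPolynomial.coe_one]

end Pool.Agent.K7.H25.OG
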