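import Pool.Agent.K7.H25.OG.Shear

/-!
# The K-polynomial of `MX_{1 × z}` at `a_0 = 1`
-/

set_option autoImplicit false
set_option linter.unusedSectionVars false
set_option linter.unnecessarySeqFocus false

namespace Pool.Agent.K7.H25.OG

open Finset MvPolynomial

variable {n : ℕ}

/-- the K-polynomial of `MX_z` -/
noncomputable def Kp (z : Equiv.Perm (Fin n)) : MvPolynomial (Fin n) ℤ :=
  (exists_kpoly wtS_ne (vanishingIdeal ℂ (MX z))).choose

theorem Kp_spec (z : Equiv.Perm (Fin n)) : (Kp z : MvPowerSeries (Fin n) ℤ) =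
    sv (wtS n) (MX z) * ∏ s, (1 - MvPowerSeries.monomial (wtS n s) 1) := by
  rw [Kp, (exists_kpoly wtS_ne (vanishingIdeal ℂ (MX z))).choose_spec, hs_vanishingIdeal]

/-- the inclusion of coordinates -/
def fs (n : ℕ) : Sym2 (Fin n) → Sym2 (Fin (n + 1)) := Sym2.map Fin.succ

theorem fs_inj : Function.Injective (fs n) := Sym2.map.injective (Fin.succ_injective n)

theorem fs_mk (i j : Fin n) : fs n s(i, j) = s(i.succ, j.succ) := rfl

theorem zero_notMem_fs (s : Sym2 (Fin n)) : (0 : Fin (n + 1)) ∉ fs n s := by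
  induction s using Sym2.ind with
  | _ i j =>
    rw [fs_mk, Sym2.mem_iff]
    rintro (h | h)
    · exact Fin.succ_ne_zero i h.symm
    · exact Fin.succ_ne_zero j h.symm

theorem exists_fs {s : Sym2 (Fin (n + 1))} (hs : (0 : Fin (n + 1)) ∉ s) : ∃ t, fs n t = s := by
  induction s using Sym2.ind with
  | _ i j =>
    rw [Sym2.mem_iff, not_or] at hs
    refine ⟨s(i.pred (Ne.symm hs.1), j.pred (Ne.symm hs.2)), ?_⟩
    rw [fs_mk, Fin.succ_pred, Fin.succ_pred]

theorem wtS_fs (s : Sym2 (Fin n)) : wtS (n + 1) (fs n s) = (wtS n s).cons 0 := by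
  induction s using Sym2.ind with
  | _ i j =>
    rw [fs_mk, wtS_mk, wtS_mk]
    ext k
    refine Fin.cases ?_ (fun k => ?_) k
    · rw [Finsupp.cons_zero, Finsupp.add_apply, Finsupp.single_eq_of_ne (Fin.succ_ne_zero _).symm,
        Finsupp.single_eq_of_ne (Fin.succ_ne_zero _).symm, add_zero]
    · rw [Finsupp.cons_succ, Finsupp.add_apply, Finsupp.add_apply]
      simp only [Finsupp.single_apply, Fin.succ_inj]

theorem weight_mapDomain (μ : Sym2 (Fin n) →₀ ℕ) :
    Finsupp.weight (wtS (n + 1)) (μ.mapDomain (fs n)) =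
      (Finsupp.weight (wtS n) μ).cons 0 := by
  induction μ using Finsupp.induction_linear with
  | zero =>
    ext k
    refine Fin.cases ?_ (fun k => ?_) k
    · simp
    · simp
  | add f g hf hg =>
    rw [Finsupp.mapDomain_add, map_add, hf, hg, map_add]
    ext k
    refine Fin.cases ?_ (fun k => ?_) k
    · simp
    · simp
  | single s c =>
    rw [Finsupp.mapDomain_single, Finsupp.weight_single, Finsupp.weight_single, wtS_fs]
    ext k
    refine Fin.cases ?_ (fun k => ?_) k
    · simp
    · simp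

theorem ws_eq_map {w : Fin (n + 1) →₀ ℕ} (hw : w 0 = 0) :
    weightedHomogeneousSubmodule ℂ (wtS (n + 1)) w =
      (weightedHomogeneousSubmodule ℂ (wtS n) (Finsupp.tail w)).map
        (rename (R := ℂ) (fs n)).toLinearMap := by
  apply le_antisymm
  · intro F hF
    have h1 : (F.vars : Set (Sym2 (Fin (n + 1)))) ⊆ Set.range (fs n) := by
      intro s hs
      rw [Finset.mem_coe, MvPolynomial.mem_vars_iff_mem_support] at hs
      obtain ⟨μ, hμ, hsμ⟩ := hs
      have h2 : (0 : Fin (n + 1)) ∉ s := by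
        intro h0
        have h3 := weight_of_mem hF hμ
        have h4 : (Finsupp.weight (wtS (n + 1)) μ) 0 = 0 := by rw [h3, hw]
        rw [weight_apply', Finsupp.finsetSum_apply] at h4
        have h5 := (Finset.sum_eq_zero_iff.1 h4) s (Finset.mem_univ s)
        rw [Finsupp.smul_apply, smul_eq_mul, mul_eq_zero] at h5
        rcases h5 with h5 | h5
        · exact (Finsupp.mem_support_iff.1 hsμ) h5
        · obtain ⟨j, rfl⟩ := h0
          rw [wtS_mk, Finsupp.add_apply, Finsupp.single_eq_same] at h5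
          omega
      obtain ⟨t, ht⟩ := exists_fs h2
      exact ⟨t, ht⟩
    obtain ⟨G, hG⟩ := exists_rename_eq_of_vars_subset_range F (fs n) fs_inj h1
    refine ⟨G, ?_, hG⟩
    intro μ hμ
    have h2 : coeff (μ.mapDomain (fs n)) F ≠ 0 := by
      rw [← hG, coeff_rename_mapDomain _ fs_inj]
      exact hμ
    have h3 := hF h2
    rw [weight_mapDomain] at h3
    rw [← h3, Finsupp.tail_cons]
  · rintro _ ⟨G, hG, rfl⟩
    intro μ hμ
    obtain ⟨ν, rfl, hν⟩ := coeff_rename_ne_zero _ _ _ hμ
    rw [weight_mapDomain, hG hν]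
    conv_rhs => rw [← Finsupp.cons_tail w, hw]

/-- the matrices supported on the lower right block -/
def C0 (W : Set (Sym2 (Fin n) → ℂ)) : Set (Sym2 (Fin (n + 1)) → ℂ) :=
  {a ∈ cyl W | ∀ s ∈ Finset.univ.filter (fun s : Sym2 (Fin (n + 1)) => (0 : Fin (n + 1)) ∈ s),
    a s = 0}

theorem sv_C0 (W : Set (Sym2 (Fin n) → ℂ)) :
    sv (wtS (n + 1)) (C0 W) = emb (sv (wtS n) W) := by
  ext w
  rw [coeff_emb, coeff_sv, coeff_sv]
  split_ifs with hw
  · congr 1
    rw [hv, hv, ws_eq_map hw, ← Submodule.map_comp]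
    refine finrank_map_eq _ _ _ fun G _ => ?_
    rw [LinearMap.comp_apply, ev_eq_zero, ev_eq_zero]
    simp only [AlgHom.toLinearMap_apply, eval_rename]
    constructor
    · intro h b hb
      have h1 : (Function.extend (fs n) b 0) ∘ fs n = b := by
        funext s
        exact fs_inj.extend_apply b 0 s
      have h2 : Function.extend (fs n) b 0 ∈ C0 W := by
        refine ⟨?_, fun s hs => ?_⟩
        · change Function.extend (fs n) b 0 ∘ fs n ∈ W
          rw [h1]
          exact hb
        · rw [Function.extend_apply']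
          · rfl
          · rintro ⟨t, rfl⟩
            exact zero_notMem_fs t (Finset.mem_filter.1 hs).2
      have h3 := h _ h2
      rwa [h1] at h3
    · intro h a ha
      exact h _ ha.1
  · have h0 : hv (wtS (n + 1)) (C0 W) w = 0 := by
      have h1 : (weightedHomogeneousSubmodule ℂ (wtS (n + 1)) w).map (ev (C0 W)) = ⊥ := by
        rw [Submodule.eq_bot_iff]
        rintro _ ⟨F, hF, rfl⟩
        rw [ev_eq_zero]
        intro a ha
        rw [eval_eq']
        refine Finset.sum_eq_zero fun μ hμ => ?_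
        have h3 := weight_of_mem hF hμ
        have h4 : ∃ s, (μ s • wtS (n + 1) s) 0 ≠ 0 := by
          by_contra hcon
          push Not at hcon
          apply hw
          rw [← h3, weight_apply', Finsupp.finsetSum_apply]
          exact Finset.sum_eq_zero fun s _ => hcon s
        obtain ⟨s, hs⟩ := h4
        rw [Finsupp.smul_apply, smul_eq_mul] at hs
        have h5 : μ s ≠ 0 := left_ne_zero_of_mul hs
        have h6 : wtS (n + 1) s 0 ≠ 0 := right_ne_zero_of_mul hs
        have h7 : (0 : Fin (n + 1)) ∈ s := by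
          by_contra h7
          obtain ⟨t, rfl⟩ := exists_fs h7
          rw [wtS_fs, Finsupp.cons_zero] at h6
          exact h6 rfl
        have h8 : a s = 0 := ha.2 s (Finset.mem_filter.2 ⟨Finset.mem_univ _, h7⟩)
        rw [Finset.prod_eq_zero (Finset.mem_univ s), mul_zero]
        rw [h8, zero_pow h5]
      rw [hv, h1, finrank_bot]
    rw [h0]; rfl

theorem prod_split {M : Type} [CommMonoid M] (f : Sym2 (Fin (n + 1)) → M) :
    ∏ s, f s = (∏ s ∈ Finset.univ.filter
      (fun s : Sym2 (Fin (n + 1)) => (0 : Fin (n + 1)) ∈ s), f s) * ∏ t, f (fs n t) := by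
  rw [← Finset.prod_filter_mul_prod_filter_not Finset.univ
    (fun s : Sym2 (Fin (n + 1)) => (0 : Fin (n + 1)) ∈ s)]
  congr 1
  rw [← Finset.prod_image (s := Finset.univ) (g := fs n) (f := f) (fun a _ b _ h => fs_inj h)]
  refine Finset.prod_congr ?_ fun _ _ => rfl
  ext s
  simp only [Finset.mem_filter, Finset.mem_univ, true_and, Finset.mem_image]
  constructor
  · intro h
    exact exists_fs h
  · rintro ⟨t, rfl⟩
    exact zero_notMem_fs t

theorem sv_cyl_prod (z : Equiv.Perm (Fin n)) :
    sv (wtS (n + 1)) (cyl (MX z)) * ∏ s, (1 - MvPowerSeries.monomial (wtS (n + 1) s) 1) =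
      ((rename Fin.succ (Kp z) : MvPolynomial (Fin (n + 1)) ℤ) :
        MvPowerSeries (Fin (n + 1)) ℤ) := by
  rw [prod_split, ← mul_assoc, sv_cyls wtS_ne]
  · change sv (wtS (n + 1)) (C0 (MX z)) * _ = _
    rw [sv_C0, ← emb_coe, Kp_spec, emb_prod]
    simp only [wtS_fs]
  · intro s hs a ha c
    have h1 : (fun t => Function.update a s c (Sym2.map Fin.succ t)) =
        fun t => a (Sym2.map Fin.succ t) := by
      funext t
      rw [Function.update_of_ne]
      rintro rfl
      exact zero_notMem_fs t (Finset.mem_filter.1 hs).2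
    change (fun t => Function.update a s c (Sym2.map Fin.succ t)) ∈ MX z
    rw [h1]
    exact ha

theorem wtS_zero_zero : wtS (n + 1) s(0, 0) = Finsupp.single 0 2 := by
  rw [wtS_mk, ← Finsupp.single_add]

/-- **the K-polynomial of `MX_{1 × z}` at `a_0 = 1` is the one of `MX_z`** -/
theorem sp_Kp (z : Equiv.Perm (Fin n)) : sp n (Kp (oneTimes z)) = Kp z := by
  have hS : Small (sv (wtS (n + 1)) (MX (oneTimes z)) - sv (wtS (n + 1)) (cyl (MX z))) := by
    refine ⟨0, fun w hw => ?_⟩
    rw [zero_add] at hw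
    rw [map_sub, coeff_sv, coeff_sv, hv_eq z hw, sub_self]
  have h1 : ((Kp (oneTimes z) - rename Fin.succ (Kp z) : MvPolynomial (Fin (n + 1)) ℤ) :
      MvPowerSeries (Fin (n + 1)) ℤ) =
      ((sv (wtS (n + 1)) (MX (oneTimes z)) - sv (wtS (n + 1)) (cyl (MX z))) *
        ∏ s ∈ Finset.univ.erase s(0, 0), (1 - MvPowerSeries.monomial (wtS (n + 1) s) 1)) *
      (1 - MvPowerSeries.monomial (Finsupp.single 0 2) 1) := by
    rw [mul_assoc, ← wtS_zero_zero, Finset.prod_erase_mul _ _ (Finset.mem_univ s(0, 0)), sub_mul,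
      sv_cyl_prod, ← Kp_spec]
    ext w
    simp only [map_sub, MvPolynomial.coeff_coe, MvPolynomial.coeff_sub]
  have h2 := sp_eq_zero (hS.prod _ _) h1
  rw [map_sub, sp_rename, sub_eq_zero] at h2
  exact h2

end Pool.Agent.K7.H25.OG
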