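import Pool.Agent.K7.H25.OG.Gen

/-!
# Hilbert series of quotients of polynomial rings, and existence of the K-polynomial
-/

set_option autoImplicit false
set_option linter.unusedSectionVars false

namespace Pool.Agent.K7.H25.OG

open Finset MvPolynomial

variable {τ ι : Type} [Fintype τ] [DecidableEq τ]

/-- the Hilbert function of `ℂ[τ] / I`: the dimension of the image of the polynomials of weight
`w` -/
noncomputable def hf (wt : τ → (ι →₀ ℕ)) (I : Ideal (MvPolynomial τ ℂ)) (w : ι →₀ ℕ) : ℕ :=
  Module.finrank ℂ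
    ((weightedHomogeneousSubmodule ℂ wt w).map (Ideal.Quotient.mkₐ ℂ I).toLinearMap)

/-- the Hilbert series -/
noncomputable def hs (wt : τ → (ι →₀ ℕ)) (I : Ideal (MvPolynomial τ ℂ)) : MvPowerSeries ι ℤ :=
  fun w => (hf wt I w : ℤ)

theorem coeff_hs (wt : τ → (ι →₀ ℕ)) (I : Ideal (MvPolynomial τ ℂ)) (w : ι →₀ ℕ) :
    MvPowerSeries.coeff w (hs wt I) = (hf wt I w : ℤ) := rfl

variable {wt : τ → (ι →₀ ℕ)}

/-- leading exponents of homogeneous elements of the ideal -/
def Ls (m : MonomialOrder τ) (wt : τ → (ι →₀ ℕ)) (I : Ideal (MvPolynomial τ ℂ)) :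
    Set (τ →₀ ℕ) :=
  {μ | ∃ F ∈ I, F ≠ 0 ∧ IsWeightedHomogeneous wt F (Finsupp.weight wt μ) ∧ m.degree F = μ}

variable {m : MonomialOrder τ} {I : Ideal (MvPolynomial τ ℂ)}

theorem isUpperSet_Ls : IsUpperSet (Ls m wt I) := by
  intro μ ν hle hμ
  obtain ⟨F, hF, hF0, hw, hd⟩ := hμ
  obtain ⟨κ, rfl⟩ := exists_add_of_le hle
  refine ⟨MvPolynomial.monomial κ 1 * F, I.mul_mem_left _ hF, ?_, ?_, ?_⟩
  · refine mul_ne_zero ?_ hF0
    rw [Ne, MvPolynomial.monomial_eq_zero]; exact one_ne_zero
  · rw [map_add, add_comm]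
    exact (isWeightedHomogeneous_monomial wt κ 1 rfl).mul hw
  · rw [MonomialOrder.degree_mul (by
      rw [Ne, MvPolynomial.monomial_eq_zero]; exact one_ne_zero) hF0, hd,
      m.degree_monomial, if_neg one_ne_zero, add_comm]

theorem weight_of_mem {F : MvPolynomial τ ℂ} {w : ι →₀ ℕ} (hw : IsWeightedHomogeneous wt F w)
    {μ : τ →₀ ℕ} (h : μ ∈ F.support) : Finsupp.weight wt μ = w :=
  hw (MvPolynomial.mem_support_iff.1 h)

theorem hf_eq (hwt : ∀ s, wt s ≠ 0) (m : MonomialOrder τ) (I : Ideal (MvPolynomial τ ℂ))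
    (w : ι →₀ ℕ) :
    hf wt I w = {μ | μ ∈ (Ls m wt I)ᶜ ∧ Finsupp.weight wt μ = w}.ncard := by
  classical
  set B : Set (τ →₀ ℕ) := {μ | μ ∈ (Ls m wt I)ᶜ ∧ Finsupp.weight wt μ = w} with hB
  have hBf : B.Finite := finite_gs hwt _ w
  have := hBf.fintype
  let q : MvPolynomial τ ℂ →ₗ[ℂ] (MvPolynomial τ ℂ ⧸ I) := (Ideal.Quotient.mkₐ ℂ I).toLinearMap
  have hq : ∀ F, q F = 0 ↔ F ∈ I := fun F => Ideal.Quotient.eq_zero_iff_mem
  let v : B → (MvPolynomial τ ℂ ⧸ I) := fun μ => q (MvPolynomial.monomial μ.1 1)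
  have hli : LinearIndependent ℂ v := by
    rw [Fintype.linearIndependent_iff]
    intro g hg
    set N : MvPolynomial τ ℂ := ∑ μ : B, MvPolynomial.monomial μ.1 (g μ) with hN
    have hcoeff : ∀ ν : τ →₀ ℕ, ∀ h : ν ∈ B, N.coeff ν = g ⟨ν, h⟩ := by
      intro ν h
      rw [hN, coeff_sum, Finset.sum_eq_single ⟨ν, h⟩]
      · simp
      · intro b _ hb
        rw [coeff_monomial, if_neg]
        intro h'; exact hb (Subtype.ext h')
      · intro h'; exact absurd (Finset.mem_univ _) h'
    have hcoeff0 : ∀ ν : τ →₀ ℕ, ν ∉ B → N.coeff ν = 0 := by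
      intro ν h
      rw [hN, coeff_sum]
      refine Finset.sum_eq_zero fun b _ => ?_
      rw [coeff_monomial, if_neg]
      intro h'; exact h (h' ▸ b.2)
    have hNI : N ∈ I := by
      rw [← hq, hN, map_sum]
      rw [← hg]
      refine Finset.sum_congr rfl fun μ _ => ?_
      rw [← map_smul, smul_monomial, smul_eq_mul, mul_one]
    have hN0 : N = 0 := by
      by_contra h0
      have h1 := m.degree_mem_support h0
      have h2 : m.degree N ∈ B := by
        by_contra h3
        exact (mem_support_iff.1 h1) (hcoeff0 _ h3)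
      apply h2.1
      refine ⟨N, hNI, h0, ?_, rfl⟩
      intro ν hν
      have h3 : ν ∈ B := by
        by_contra h4
        exact hν (hcoeff0 _ h4)
      rw [h3.2, h2.2]
    intro μ
    rw [← hcoeff μ.1 μ.2, hN0, coeff_zero]
  have hspan : Submodule.span ℂ (Set.range v) =
      (weightedHomogeneousSubmodule ℂ wt w).map q := by
    apply le_antisymm
    · rw [Submodule.span_le]
      rintro _ ⟨μ, rfl⟩
      refine Submodule.mem_map_of_mem ?_
      exact isWeightedHomogeneous_monomial wt _ _ μ.2.2
    · have key : ∀ s : m.syn, ∀ μ : τ →₀ ℕ, m.toSyn μ = s → Finsupp.weight wt μ = w →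
          q (MvPolynomial.monomial μ 1) ∈ Submodule.span ℂ (Set.range v) := by
        intro s
        induction s using WellFoundedLT.induction with
        | ind s ih =>
          intro μ hs hμ
          by_cases hl : μ ∈ Ls m wt I
          · obtain ⟨F, hF, hF0, hw, hd⟩ := hl
            have hc : F.coeff μ ≠ 0 := by
              rw [← hd]; exact m.leadingCoeff_ne_zero_iff.2 hF0
            have hmem : μ ∈ F.support := mem_support_iff.2 hc
            have h1 : MvPolynomial.monomial μ (F.coeff μ) =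
                F - ∑ ν ∈ F.support.erase μ, MvPolynomial.monomial ν (F.coeff ν) := by
              rw [eq_sub_iff_add_eq,
                Finset.add_sum_erase _ (fun ν => MvPolynomial.monomial ν (F.coeff ν)) hmem]
              exact MvPolynomial.support_sum_monomial_coeff F
            have h2 : q (MvPolynomial.monomial μ 1) = (F.coeff μ)⁻¹ •
                q (MvPolynomial.monomial μ (F.coeff μ)) := by
              rw [← map_smul, smul_monomial, smul_eq_mul, inv_mul_cancel₀ hc]
            rw [h2, h1, map_sub, (hq F).2 hF, zero_sub, map_sum]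
            refine Submodule.smul_mem _ _ (Submodule.neg_mem _ (Submodule.sum_mem _ ?_))
            intro ν hν
            have hν1 := (Finset.mem_erase.1 hν).1
            have hν2 := (Finset.mem_erase.1 hν).2
            have h3 : m.toSyn ν < m.toSyn μ := by
              refine lt_of_le_of_ne ?_ ?_
              · rw [← hd]; exact m.le_degree hν2
              · intro h; exact hν1 (m.toSyn.injective h)
            have h4 : q (MvPolynomial.monomial ν (F.coeff ν)) =
                F.coeff ν • q (MvPolynomial.monomial ν 1) := by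
              rw [← map_smul, smul_monomial, smul_eq_mul, mul_one]
            rw [h4]
            refine Submodule.smul_mem _ _ (ih _ (hs ▸ h3) ν rfl ?_)
            rw [weight_of_mem hw hν2, hμ]
          · exact Submodule.subset_span ⟨⟨μ, hl, hμ⟩, rfl⟩
      rintro _ ⟨F, hF, rfl⟩
      rw [← MvPolynomial.support_sum_monomial_coeff F, map_sum]
      refine Submodule.sum_mem _ fun ν hν => ?_
      have h4 : q (MvPolynomial.monomial ν (F.coeff ν)) =
          F.coeff ν • q (MvPolynomial.monomial ν 1) := by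
        rw [← map_smul, smul_monomial, smul_eq_mul, mul_one]
      rw [h4]
      exact Submodule.smul_mem _ _ (key _ ν rfl (weight_of_mem hF hν))
  have h1 : hf wt I w = Module.finrank ℂ (Submodule.span ℂ (Set.range v)) := by
    rw [hspan]; rfl
  rw [h1, finrank_span_eq_card hli, ← Nat.card_eq_fintype_card, Nat.card_coe_set_eq]

/-- Existence of the K-polynomial. -/
theorem exists_kpoly (hwt : ∀ s, wt s ≠ 0) (I : Ideal (MvPolynomial τ ℂ)) :
    ∃ P : MvPolynomial ι ℤ, (P : MvPowerSeries ι ℤ) =
      hs wt I * ∏ s, (1 - MvPowerSeries.monomial (wt s) 1) := by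
  let _ : LinearOrder τ := LinearOrder.lift' (Fintype.equivFin τ) (Fintype.equivFin τ).injective
  have h : hs wt I = gs wt (Ls (MonomialOrder.lex (σ := τ)) wt I)ᶜ := by
    ext w
    rw [coeff_hs, coeff_gs, hf_eq hwt (MonomialOrder.lex (σ := τ)) I w]
  rw [h]
  exact isPol_compl hwt isUpperSet_Ls

end Pool.Agent.K7.H25.OG
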