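import Pool.Agent.K7.H25.OG.Slice

/-!
# `K(MX_{1 × z})` at `a_0 = 1` is `K(MX_z)`
-/

set_option autoImplicit false
set_option linter.unusedSectionVars false
set_option linter.unnecessarySeqFocus false

namespace Pool.Agent.K7.H25.OG

open Finset MvPolynomial

variable {n : ℕ}

theorem aeval_mem {τ ι : Type} [Fintype τ] [DecidableEq τ] {wt : τ → (ι →₀ ℕ)} (g : τ → MvPolynomial τ ℂ)
    (hg : ∀ s, g s ∈ weightedHomogeneousSubmodule ℂ wt (wt s)) {w : ι →₀ ℕ}
    {F : MvPolynomial τ ℂ} (hF : F ∈ weightedHomogeneousSubmodule ℂ wt w) :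
    aeval g F ∈ weightedHomogeneousSubmodule ℂ wt w := by
  rw [← MvPolynomial.support_sum_monomial_coeff F, map_sum]
  refine Submodule.sum_mem _ fun μ hμ => ?_
  rw [aeval_monomial]
  have h1 : IsWeightedHomogeneous wt (μ.prod fun s k => g s ^ k) w := by
    rw [← weight_of_mem hF hμ, Finsupp.weight_apply]
    exact IsWeightedHomogeneous.prod _ _ _ fun s _ => (hg s).pow _
  rw [← Algebra.smul_def]
  exact Submodule.smul_mem _ _ h1

/-- the quadratic terms of the shear -/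
noncomputable def qp : Sym2 (Fin (n + 1)) → MvPolynomial (Sym2 (Fin (n + 1))) ℂ :=
  Sym2.lift ⟨fun i j => if i = 0 ∨ j = 0 then 0 else X s(0, i) * X s(0, j), fun i j => by
    simp only [mul_comm, or_comm]⟩

/-- the shear -/
noncomputable def Phi (ε : ℂ) :
    MvPolynomial (Sym2 (Fin (n + 1))) ℂ →ₐ[ℂ] MvPolynomial (Sym2 (Fin (n + 1))) ℂ :=
  aeval fun s => X s + ε • qp s

theorem Phi_X (ε : ℂ) (s : Sym2 (Fin (n + 1))) : Phi ε (X s) = X s + ε • qp s := by
  rw [Phi, aeval_X]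

theorem qp_zero (j : Fin (n + 1)) : qp s(0, j) = (0 : MvPolynomial (Sym2 (Fin (n + 1))) ℂ) := by
  simp [qp]

theorem Phi_qp (ε : ℂ) (s : Sym2 (Fin (n + 1))) : Phi ε (qp s) = qp s := by
  induction s using Sym2.ind with
  | _ i j =>
    by_cases h : i = 0 ∨ j = 0
    · simp only [qp, Sym2.lift_mk, if_pos h, map_zero]
    · simp only [qp, Sym2.lift_mk, if_neg h, map_mul]
      rw [Phi_X, Phi_X, qp_zero, qp_zero, smul_zero, add_zero, add_zero]

theorem Phi_Phi (ε : ℂ) (F : MvPolynomial (Sym2 (Fin (n + 1))) ℂ) :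
    Phi ε (Phi (-ε) F) = F := by
  have h : (Phi ε).comp (Phi (-ε)) =
      AlgHom.id ℂ (MvPolynomial (Sym2 (Fin (n + 1))) ℂ) := by
    apply MvPolynomial.algHom_ext
    intro s
    rw [AlgHom.comp_apply, Phi_X, map_add, map_smul, Phi_qp, Phi_X, AlgHom.id_apply]
    simp
  exact DFunLike.congr_fun h F

theorem Phi_mem (ε : ℂ) {w : Fin n →₀ ℕ} {F : MvPolynomial (Sym2 (Fin (n + 1))) ℂ}
    (hF : F ∈ weightedHomogeneousSubmodule ℂ (wtT n) w) :
    Phi ε F ∈ weightedHomogeneousSubmodule ℂ (wtT n) w := by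
  refine aeval_mem _ (fun s => ?_) hF
  refine Submodule.add_mem _ (isWeightedHomogeneous_X ℂ _ s) (Submodule.smul_mem _ _ ?_)
  induction s using Sym2.ind with
  | _ i j =>
    by_cases h : i = 0 ∨ j = 0
    · simp only [qp, Sym2.lift_mk, if_pos h]
      exact Submodule.zero_mem _
    · simp only [qp, Sym2.lift_mk, if_neg h]
      rw [not_or] at h
      have h1 : wtT n s(i, j) = wtT n s(0, i) + wtT n s(0, j) := by
        ext k
        have h0 : (Finsupp.single (0 : Fin (n + 1)) 1) k.succ = 0 :=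
          Finsupp.single_eq_of_ne (Fin.succ_ne_zero k)
        simp only [wtT, wtS_mk, Finsupp.tail_apply, Finsupp.add_apply, h0, zero_add]
      rw [h1]
      exact (isWeightedHomogeneous_X ℂ _ _).mul (isWeightedHomogeneous_X ℂ _ _)

theorem map_Phi (ε : ℂ) (w : Fin n →₀ ℕ) :
    (weightedHomogeneousSubmodule ℂ (wtT n) w).map (Phi ε).toLinearMap =
      weightedHomogeneousSubmodule ℂ (wtT n) w := by
  apply le_antisymm
  · rintro _ ⟨F, hF, rfl⟩
    exact Phi_mem ε hF
  · intro F hF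
    exact ⟨Phi (-ε) F, Phi_mem _ hF, Phi_Phi ε F⟩

/-- evaluation of the quadratic terms -/
noncomputable def qe (a : Sym2 (Fin (n + 1)) → ℂ) (s : Sym2 (Fin (n + 1))) : ℂ := eval a (qp s)

theorem qe_mk (a : Sym2 (Fin (n + 1)) → ℂ) (i j : Fin (n + 1)) :
    qe a s(i, j) = if i = 0 ∨ j = 0 then 0 else a s(0, i) * a s(0, j) := by
  simp only [qe, qp, Sym2.lift_mk]
  split_ifs <;> simp

/-- the shear of points -/
noncomputable def th (ε : ℂ) (a : Sym2 (Fin (n + 1)) → ℂ) : Sym2 (Fin (n + 1)) → ℂ :=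
  fun s => a s + ε * qe a s

theorem eval_Phi (ε : ℂ) (a : Sym2 (Fin (n + 1)) → ℂ)
    (F : MvPolynomial (Sym2 (Fin (n + 1))) ℂ) : eval a (Phi ε F) = eval (th ε a) F := by
  rw [← coe_aeval_eq_eval, ← coe_aeval_eq_eval, RingHom.coe_coe, RingHom.coe_coe,
    ← AlgHom.comp_apply]
  congr 1
  apply MvPolynomial.algHom_ext
  intro s
  rw [AlgHom.comp_apply, Phi_X, map_add, map_smul, aeval_X, aeval_X, smul_eq_mul]
  rfl

theorem th_zero (ε : ℂ) (a : Sym2 (Fin (n + 1)) → ℂ) (j : Fin (n + 1)) :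
    th ε a s(0, j) = a s(0, j) := by
  rw [th, qe_mk, if_pos (Or.inl rfl), mul_zero, add_zero]

theorem th_th (ε : ℂ) (a : Sym2 (Fin (n + 1)) → ℂ) : th ε (th (-ε) a) = a := by
  funext s
  induction s using Sym2.ind with
  | _ i j =>
    rw [th, qe_mk, th_zero, th_zero, th, qe_mk]
    split_ifs <;> ring

/-- the cylinder over a set of symmetric `n × n` matrices -/
def cyl (W : Set (Sym2 (Fin n) → ℂ)) : Set (Sym2 (Fin (n + 1)) → ℂ) :=
  {a | (fun s => a (Sym2.map Fin.succ s)) ∈ W}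

theorem schur_eq (a : Sym2 (Fin (n + 1)) → ℂ) :
    schur a = fun s => th (-1) a (Sym2.map Fin.succ s) := by
  funext s
  induction s using Sym2.ind with
  | _ i j =>
    rw [Sym2.map_mk, th]
    rw [qe_mk, if_neg (by simp [Fin.succ_ne_zero])]
    simp only [schur, Sym2.lift_mk]
    ring

theorem mem_MX_iff (z : Equiv.Perm (Fin n)) (a : Sym2 (Fin (n + 1)) → ℂ)
    (h : a s(0, 0) = 1) : a ∈ MX (oneTimes z) ↔ th (-1) a ∈ cyl (MX z) := by
  rw [mem_MX_oneTimes z a h, schur_eq]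
  rfl

theorem scal_MX (z : Equiv.Perm (Fin (n + 1))) (t : ℂ) (ht : t ≠ 0)
    (a : Sym2 (Fin (n + 1)) → ℂ) (ha : a ∈ MX z) : scal t a ∈ MX z := by
  intro i j hi hj
  refine le_trans (le_of_eq ?_) (ha i j hi hj)
  let d : Fin (n + 1) → ℂ := fun k => t ^ ((Finsupp.single k 1 : Fin (n + 1) →₀ ℕ) 0)
  have hd : ∀ k, d k ≠ 0 := fun k => pow_ne_zero _ ht
  have h1 : ul (symMat (scal t a)) i j =
      Matrix.diagonal (fun k : {k : Fin (n + 1) // (k : ℕ) < i} => d k.1) *
        ul (symMat a) i j *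
      Matrix.diagonal (fun k : {k : Fin (n + 1) // (k : ℕ) < j} => d k.1) := by
    ext p q
    rw [Matrix.mul_diagonal, Matrix.diagonal_mul]
    simp only [ul, symMat, Matrix.submatrix_apply, Matrix.of_apply, scal, wtS_mk,
      Finsupp.add_apply, pow_add, d]
    ring
  rw [h1, Matrix.rank_mul_eq_left_of_isUnit_det, Matrix.rank_mul_eq_right_of_isUnit_det]
  · rw [Matrix.det_diagonal]
    exact (Finset.prod_ne_zero_iff.2 fun k _ => hd k.1).isUnit
  · rw [Matrix.det_diagonal]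
    exact (Finset.prod_ne_zero_iff.2 fun k _ => hd k.1).isUnit

theorem scal_cyl (W : Set (Sym2 (Fin n) → ℂ)) (t : ℂ) (a : Sym2 (Fin (n + 1)) → ℂ)
    (ha : a ∈ cyl W) : scal t a ∈ cyl W := by
  have h : (fun s => scal t a (Sym2.map Fin.succ s)) = fun s => a (Sym2.map Fin.succ s) := by
    funext s
    induction s using Sym2.ind with
    | _ i j =>
      have h0 : ∀ k : Fin n, (Finsupp.single k.succ 1 : Fin (n + 1) →₀ ℕ) 0 = 0 := fun k =>
        Finsupp.single_eq_of_ne (Fin.succ_ne_zero k).symm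
      change t ^ (wtS (n + 1) s(i.succ, j.succ) 0) * _ = _
      rw [wtS_mk, Finsupp.add_apply, h0, h0]
      simp
  change (fun s => scal t a (Sym2.map Fin.succ s)) ∈ W
  rw [h]
  exact ha

/-- the Hilbert functions of `MX_{1 × z}` and of the cylinder over `MX_z` agree when the first
weight is large -/
theorem hv_eq (z : Equiv.Perm (Fin n)) {w : Fin (n + 1) →₀ ℕ}
    (hw : (Finsupp.tail w).degree < w 0) :
    hv (wtS (n + 1)) (MX (oneTimes z)) w = hv (wtS (n + 1)) (cyl (MX z)) w := by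
  by_cases hpar : Even (w 0 + (Finsupp.tail w).degree)
  · rw [hv_slice (scal_MX (oneTimes z)) hw, hv_slice (fun t _ => scal_cyl (MX z) t) hw,
      map_slice hw hpar, map_slice hw hpar]
    conv_lhs => rw [← map_Phi (-1)]
    rw [← Submodule.map_comp]
    refine finrank_map_eq _ _ _ fun F _ => ?_
    rw [ev_eq_zero, LinearMap.comp_apply, ev_eq_zero]
    constructor
    · rintro h c ⟨hc1, hc2⟩
      have h1 : th (-1) (th 1 c) = c := by
        have := th_th (-1) c
        rwa [neg_neg] at this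
      have h0 : th 1 c s(0, 0) = 1 := by rw [th_zero]; exact hc2
      have h2 : th 1 c ∈ MX (oneTimes z) := by
        rw [mem_MX_iff z _ h0, h1]; exact hc1
      have h3 := h (th 1 c) ⟨h2, h0⟩
      rw [AlgHom.toLinearMap_apply, eval_Phi, h1] at h3
      exact h3
    · rintro h a ⟨ha1, ha2⟩
      rw [AlgHom.toLinearMap_apply, eval_Phi]
      refine h _ ⟨(mem_MX_iff z a ha2).1 ha1, ?_⟩
      rw [th_zero]; exact ha2
  · have h0 : weightedHomogeneousSubmodule ℂ (wtS (n + 1)) w = ⊥ := by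
      rw [Submodule.eq_bot_iff]
      intro F hF
      ext μ
      rw [coeff_zero]
      by_contra hμ
      have h1 := hF hμ
      apply hpar
      have h2 := weight_zero_add μ
      rw [← tail_weight, h1] at h2
      exact ⟨∑ s, μ s, by omega⟩
    rw [hv, hv, h0, Submodule.map_bot, Submodule.map_bot, finrank_bot, finrank_bot]

end Pool.Agent.K7.H25.OG
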