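import Pool.Agent.K7.H25.OG.Spec

/-!
# The Hilbert function of a torus-stable set and of its slice `A_00 = 1`
-/

set_option autoImplicit false
set_option linter.unusedSectionVars false

namespace Pool.Agent.K7.H25.OG

open Finset MvPolynomial

variable {n : ℕ}

/-- scaling by the first coordinate of the torus -/
noncomputable def scal (t : ℂ) (a : Sym2 (Fin (n + 1)) → ℂ) : Sym2 (Fin (n + 1)) → ℂ :=
  fun s => t ^ (wtS (n + 1) s 0) * a s

theorem weight_apply' {τ ι : Type} [Fintype τ] (wt : τ → (ι →₀ ℕ)) (μ : τ →₀ ℕ) :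
    Finsupp.weight wt μ = ∑ s, μ s • wt s := by
  rw [Finsupp.weight_apply, Finsupp.sum_fintype]
  intro i; simp

theorem eval_scal {F : MvPolynomial (Sym2 (Fin (n + 1))) ℂ} {w : Fin (n + 1) →₀ ℕ}
    (hF : F ∈ weightedHomogeneousSubmodule ℂ (wtS (n + 1)) w) (t : ℂ)
    (a : Sym2 (Fin (n + 1)) → ℂ) : eval (scal t a) F = t ^ (w 0) * eval a F := by
  rw [eval_eq', eval_eq', Finset.mul_sum]
  refine Finset.sum_congr rfl fun μ hμ => ?_
  have h1 : ∏ s, scal t a s ^ μ s = t ^ (w 0) * ∏ s, a s ^ μ s := by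
    simp only [scal, mul_pow, Finset.prod_mul_distrib]
    congr 1
    simp only [← pow_mul]
    rw [Finset.prod_pow_eq_pow_sum]
    congr 1
    rw [← weight_of_mem hF hμ, weight_apply', Finsupp.finsetSum_apply]
    refine Finset.sum_congr rfl fun s _ => ?_
    simp [mul_comm]
  rw [h1]; ring

/-- the tail weights -/
noncomputable def wtT (n : ℕ) : Sym2 (Fin (n + 1)) → (Fin n →₀ ℕ) :=
  fun s => Finsupp.tail (wtS (n + 1) s)

/-- the tail as a homomorphism -/
noncomputable def tailH (n : ℕ) : (Fin (n + 1) →₀ ℕ) →+ (Fin n →₀ ℕ) where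
  toFun := Finsupp.tail
  map_zero' := by ext i; simp [Finsupp.tail_apply]
  map_add' := tail_add

theorem tail_weight (μ : Sym2 (Fin (n + 1)) →₀ ℕ) :
    Finsupp.tail (Finsupp.weight (wtS (n + 1)) μ) = Finsupp.weight (wtT n) μ := by
  rw [weight_apply', weight_apply']
  change tailH n _ = _
  rw [map_sum]
  refine Finset.sum_congr rfl fun s _ => ?_
  rw [map_nsmul]
  rfl

theorem wt_sum (s : Sym2 (Fin (n + 1))) : wtS (n + 1) s 0 + (wtT n s).degree = 2 := by
  have h : ∀ w : Fin (n + 1) →₀ ℕ, w 0 + (Finsupp.tail w).degree = w.degree := by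
    intro w
    rw [Finsupp.degree_eq_sum, Finsupp.degree_eq_sum, Fin.sum_univ_succ]
    rfl
  rw [wtT, h]
  induction s using Sym2.ind with
  | _ i j => rw [wtS_mk, map_add, Finsupp.degree_single, Finsupp.degree_single]

theorem wt_le {s : Sym2 (Fin (n + 1))} (hs : s ≠ s(0, 0)) : wtS (n + 1) s 0 ≤ 1 := by
  induction s using Sym2.ind with
  | _ i j =>
    rw [wtS_mk, Finsupp.add_apply]
    by_cases hi : i = 0
    · have hj : j ≠ 0 := by rintro rfl; exact hs (by rw [hi])
      rw [Finsupp.single_eq_of_ne hj.symm, add_zero, Finsupp.single_apply]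
      (split_ifs <;> omega)
    · rw [Finsupp.single_eq_of_ne (Ne.symm hi), zero_add, Finsupp.single_apply]
      (split_ifs <;> omega)

theorem weight_zero_add (μ : Sym2 (Fin (n + 1)) →₀ ℕ) :
    Finsupp.weight (wtS (n + 1)) μ 0 + (Finsupp.weight (wtT n) μ).degree = 2 * ∑ s, μ s := by
  rw [weight_apply', weight_apply', Finsupp.finsetSum_apply, map_sum, ← Finset.sum_add_distrib,
    Finset.mul_sum]
  refine Finset.sum_congr rfl fun s _ => ?_
  rw [Finsupp.smul_apply, map_nsmul, ← smul_add, wt_sum, smul_eq_mul, mul_comm]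

theorem weight_zero_le {μ : Sym2 (Fin (n + 1)) →₀ ℕ} (h0 : μ s(0, 0) = 0) :
    Finsupp.weight (wtS (n + 1)) μ 0 ≤ (Finsupp.weight (wtT n) μ).degree := by
  rw [weight_apply', weight_apply', Finsupp.finsetSum_apply, map_sum]
  refine Finset.sum_le_sum fun s _ => ?_
  rw [Finsupp.smul_apply, map_nsmul]
  by_cases hs : s = s(0, 0)
  · rw [hs, h0]; simp
  · have h1 := wt_sum s
    have h2 := wt_le hs
    exact smul_le_smul_of_nonneg_left (by omega) (Nat.zero_le _)

theorem eval_eq_zero_of {F : MvPolynomial (Sym2 (Fin (n + 1))) ℂ} {w : Fin (n + 1) →₀ ℕ}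
    (hF : F ∈ weightedHomogeneousSubmodule ℂ (wtS (n + 1)) w) (hw : (Finsupp.tail w).degree < w 0)
    {a : Sym2 (Fin (n + 1)) → ℂ} (ha : a s(0, 0) = 0) : eval a F = 0 := by
  rw [eval_eq']
  refine Finset.sum_eq_zero fun μ hμ => ?_
  have h1 : μ s(0, 0) ≠ 0 := by
    intro h0
    have h2 := weight_zero_le h0
    have h3 := weight_of_mem hF hμ
    rw [← tail_weight, h3] at h2
    omega
  rw [Finset.prod_eq_zero (Finset.mem_univ s(0, 0)), mul_zero]
  rw [ha, zero_pow h1]

theorem hv_slice {V : Set (Sym2 (Fin (n + 1)) → ℂ)}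
    (hV : ∀ t : ℂ, t ≠ 0 → ∀ a ∈ V, scal t a ∈ V) {w : Fin (n + 1) →₀ ℕ}
    (hw : (Finsupp.tail w).degree < w 0) :
    hv (wtS (n + 1)) V w = Module.finrank ℂ
      ((weightedHomogeneousSubmodule ℂ (wtS (n + 1)) w).map (ev {a ∈ V | a s(0, 0) = 1})) := by
  refine finrank_map_eq _ _ _ fun F hF => ?_
  rw [ev_eq_zero, ev_eq_zero]
  constructor
  · intro h a ha
    exact h a ha.1
  · intro h a ha
    by_cases h0 : a s(0, 0) = 0
    · exact eval_eq_zero_of hF hw h0
    · obtain ⟨t, ht⟩ := IsAlgClosed.exists_pow_nat_eq ((a s(0, 0))⁻¹) (n := 2) (by norm_num)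
      have ht0 : t ≠ 0 := by
        rintro rfl
        rw [zero_pow (by norm_num)] at ht
        exact inv_ne_zero h0 ht.symm
      have h1 : (wtS (n + 1) s(0, 0)) 0 = 2 := by
        rw [wtS_mk, Finsupp.add_apply, Finsupp.single_eq_same]
      have h2 := h (scal t a) ⟨hV t ht0 a ha, by
        rw [scal, h1, ht, inv_mul_cancel₀ h0]⟩
      rw [eval_scal hF] at h2
      exact (mul_eq_zero.1 h2).resolve_left (pow_ne_zero _ ht0)

theorem map_slice {V : Set (Sym2 (Fin (n + 1)) → ℂ)} {w : Fin (n + 1) →₀ ℕ}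
    (hw : (Finsupp.tail w).degree < w 0) (hpar : Even (w 0 + (Finsupp.tail w).degree)) :
    (weightedHomogeneousSubmodule ℂ (wtS (n + 1)) w).map (ev {a ∈ V | a s(0, 0) = 1}) =
      (weightedHomogeneousSubmodule ℂ (wtT n) (Finsupp.tail w)).map
        (ev {a ∈ V | a s(0, 0) = 1}) := by
  apply le_antisymm
  · refine Submodule.map_mono ?_
    intro F hF μ hμ
    rw [← tail_weight, hF hμ]
  · rintro _ ⟨G, hG, rfl⟩
    rw [← MvPolynomial.support_sum_monomial_coeff G, map_sum]
    refine Submodule.sum_mem _ fun μ hμ => ?_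
    have hμw : Finsupp.weight (wtT n) μ = Finsupp.tail w := weight_of_mem hG hμ
    set ν := μ.erase s(0, 0) with hν
    have hν0 : ν s(0, 0) = 0 := by rw [hν, Finsupp.erase_same]
    have h00 : wtT n s(0, 0) = 0 := by
      have h1 := wt_sum (n := n) s(0, 0)
      have h2 : (wtS (n + 1) s(0, 0)) 0 = 2 := by
        rw [wtS_mk, Finsupp.add_apply, Finsupp.single_eq_same]
      exact (Finsupp.degree_eq_zero_iff _).1 (by omega)
    have h1 : μ = ν + Finsupp.single s(0, 0) (μ s(0, 0)) := by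
      rw [hν, Finsupp.erase_add_single]
    have h2 : Finsupp.weight (wtT n) ν = Finsupp.tail w := by
      rw [← hμw, h1, map_add, Finsupp.weight_single, h00, smul_zero, add_zero]
    have h3 := weight_zero_le hν0
    have h4 := weight_zero_add ν
    rw [h2] at h3 h4
    obtain ⟨e, he⟩ := hpar
    -- the exponent of `A_00`
    obtain ⟨k, hk⟩ : ∃ k, Finsupp.weight (wtS (n + 1)) ν 0 + k * 2 = w 0 :=
      ⟨e - ∑ s, ν s, by omega⟩
    have h5 : Finsupp.weight (wtS (n + 1)) (ν + Finsupp.single s(0, 0) k) = w := by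
      rw [map_add, Finsupp.weight_single]
      have h6 : (wtS (n + 1) s(0, 0)) 0 = 2 := by
        rw [wtS_mk, Finsupp.add_apply, Finsupp.single_eq_same]
      ext i
      refine Fin.cases ?_ (fun j => ?_) i
      · rw [Finsupp.add_apply, Finsupp.smul_apply, h6, smul_eq_mul, hk]
      · rw [Finsupp.add_apply, Finsupp.smul_apply]
        have h7 : Finsupp.weight (wtS (n + 1)) ν j.succ = w j.succ := by
          rw [← Finsupp.tail_apply, tail_weight, h2, Finsupp.tail_apply]
        have h8 : wtS (n + 1) s(0, 0) j.succ = 0 := by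
          have := DFunLike.congr_fun h00 j
          rwa [wtT, Finsupp.tail_apply] at this
        rw [h7, h8, smul_zero, add_zero]
    refine ⟨MvPolynomial.monomial (ν + Finsupp.single s(0, 0) k) (coeff μ G),
      isWeightedHomogeneous_monomial _ _ _ h5, ?_⟩
    funext a
    change eval a.1 _ = eval a.1 _
    have h9 : ∀ l, eval a.1 (MvPolynomial.monomial (ν + Finsupp.single s(0, 0) l) (coeff μ G)) =
        eval a.1 (MvPolynomial.monomial ν (coeff μ G)) := by
      intro l
      have : MvPolynomial.monomial (ν + Finsupp.single s(0, 0) l) (coeff μ G) =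
          MvPolynomial.monomial ν (coeff μ G) * X s(0, 0) ^ l := by
        rw [X_pow_eq_monomial, monomial_mul, mul_one]
      rw [this, map_mul, map_pow, eval_X, a.2.2, one_pow, mul_one]
    have h10 := (h9 (μ s(0, 0))).symm
    rw [← h1] at h10
    rw [h9, h10]

end Pool.Agent.K7.H25.OG
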