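import Pool.Agent.K7.H25.OG.Defs

/-!
# Setting the first variable of a K-polynomial equal to one
-/

set_option autoImplicit false
set_option linter.unusedSectionVars false

namespace Pool.Agent.K7.H25.OG

open Finset MvPolynomial

variable {n : ℕ}

/-- the coefficients `w` with `w 0` large compared with the rest vanish -/
def Small (F : MvPowerSeries (Fin (n + 1)) ℤ) : Prop :=
  ∃ c : ℕ, ∀ w, c + (Finsupp.tail w).degree < w 0 → MvPowerSeries.coeff w F = 0

theorem tail_sub (w u : Fin (n + 1) →₀ ℕ) :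
    Finsupp.tail (w - u) = Finsupp.tail w - Finsupp.tail u := by
  ext i; simp [Finsupp.tail_apply]

theorem tail_add (w u : Fin (n + 1) →₀ ℕ) :
    Finsupp.tail (w + u) = Finsupp.tail w + Finsupp.tail u := by
  ext i; simp [Finsupp.tail_apply]

theorem Small.mul {F : MvPowerSeries (Fin (n + 1)) ℤ} (hF : Small F) (u : Fin (n + 1) →₀ ℕ) :
    Small (F * (1 - MvPowerSeries.monomial u 1)) := by
  classical
  obtain ⟨c, hc⟩ := hF
  refine ⟨c + u 0, fun w hw => ?_⟩
  rw [mul_sub, mul_one, map_sub, mul_comm, MvPowerSeries.coeff_monomial_mul, hc w (by omega)]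
  split_ifs with h
  · rw [hc (w - u)]
    · simp
    · rw [Finsupp.tsub_apply, tail_sub]
      have h1 : (Finsupp.tail w - Finsupp.tail u).degree ≤ (Finsupp.tail w).degree :=
        Finsupp.degree_mono tsub_le_self
      omega
  · simp

theorem Small.prod {F : MvPowerSeries (Fin (n + 1)) ℤ} (hF : Small F) {τ : Type}
    (J : Finset τ) (wt : τ → (Fin (n + 1) →₀ ℕ)) :
    Small (F * ∏ s ∈ J, (1 - MvPowerSeries.monomial (wt s) 1)) := by
  classical
  induction J using Finset.induction_on with
  | empty => simpa using hF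
  | insert s J hs ih =>
    rw [Finset.prod_insert hs, mul_comm (1 - _), ← mul_assoc]
    exact ih.mul _

/-- the substitution `a_0 = 1` -/
noncomputable def sp (n : ℕ) : MvPolynomial (Fin (n + 1)) ℤ →+* MvPolynomial (Fin n) ℤ :=
  (Polynomial.evalRingHom 1).comp (finSuccEquiv ℤ n : _ →+* _)

theorem sp_apply (P : MvPolynomial (Fin (n + 1)) ℤ) :
    sp n P = (finSuccEquiv ℤ n P).eval 1 := rfl

theorem coeff_sp (P : MvPolynomial (Fin (n + 1)) ℤ) (m : Fin n →₀ ℕ) (K : ℕ)
    (hK : (finSuccEquiv ℤ n P).natDegree < K) :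
    coeff m (sp n P) = ∑ i ∈ range K, coeff (m.cons i) P := by
  rw [sp_apply, Polynomial.eval_eq_sum_range' hK, coeff_sum]
  refine Finset.sum_congr rfl fun i _ => ?_
  rw [one_pow, mul_one, finSuccEquiv_coeff_coeff]

theorem sp_X_zero : sp n (X 0) = 1 := by
  rw [sp_apply, finSuccEquiv_X_zero, Polynomial.eval_X]

theorem sp_X_succ (i : Fin n) : sp n (X i.succ) = X i := by
  rw [sp_apply, finSuccEquiv_X_succ, Polynomial.eval_C]

theorem sp_rename (P : MvPolynomial (Fin n) ℤ) : sp n (rename Fin.succ P) = P := by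
  induction P using MvPolynomial.induction_on with
  | C a => rw [rename_C, ← algebraMap_eq, sp_apply, AlgEquiv.commutes]; simp
  | add p q hp hq => rw [map_add, map_add, hp, hq]
  | mul_X p i hp => rw [map_mul, map_mul, hp, rename_X, sp_X_succ]

theorem sum_tele (D : ℕ → ℤ) (K : ℕ) :
    ∑ i ∈ range (K + 2), (D i - if 2 ≤ i then D (i - 2) else 0) = D (K + 1) + D K := by
  induction K with
  | zero => simp [Finset.sum_range_succ]; ring
  | succ K ih =>
    rw [show K + 1 + 2 = (K + 2) + 1 from rfl, Finset.sum_range_succ, ih, if_pos (by omega)]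
    rw [show K + 2 - 2 = K by omega]
    ring

theorem sp_eq_zero {F : MvPowerSeries (Fin (n + 1)) ℤ} (hF : Small F)
    {P : MvPolynomial (Fin (n + 1)) ℤ}
    (h : (P : MvPowerSeries (Fin (n + 1)) ℤ) =
      F * (1 - MvPowerSeries.monomial (Finsupp.single 0 2) 1)) : sp n P = 0 := by
  classical
  ext m
  obtain ⟨c, hc⟩ := hF
  set K := (finSuccEquiv ℤ n P).natDegree + c + m.degree + 1 with hK
  rw [coeff_sp P m (K + 2) (by omega), coeff_zero]
  have h1 : ∀ i, coeff (m.cons i) P = MvPowerSeries.coeff (m.cons i) F -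
      if 2 ≤ i then MvPowerSeries.coeff (m.cons (i - 2)) F else 0 := by
    intro i
    rw [← MvPolynomial.coeff_coe, h, mul_sub, mul_one, map_sub, mul_comm,
      MvPowerSeries.coeff_monomial_mul, one_mul]
    congr 1
    have h2 : Finsupp.single 0 2 ≤ m.cons i ↔ 2 ≤ i := by
      rw [Finsupp.single_le_iff, Finsupp.cons_zero]
    have h3 : m.cons i - Finsupp.single 0 2 = m.cons (i - 2) := by
      ext j
      refine Fin.cases ?_ (fun j => ?_) j
      · simp
      · simp
    by_cases h4 : 2 ≤ i
    · rw [if_pos (h2.2 h4), if_pos h4, h3]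
    · rw [if_neg (fun h5 => h4 (h2.1 h5)), if_neg h4]
  rw [Finset.sum_congr rfl fun i _ => h1 i, sum_tele (fun i => MvPowerSeries.coeff (m.cons i) F)]
  rw [hc, hc]
  · simp
  · rw [Finsupp.cons_zero, Finsupp.tail_cons]; omega
  · rw [Finsupp.cons_zero, Finsupp.tail_cons]; omega

/-- power series in the last variables as power series in all variables -/
noncomputable def emb (F : MvPowerSeries (Fin n) ℤ) : MvPowerSeries (Fin (n + 1)) ℤ :=
  fun w => if w 0 = 0 then F (Finsupp.tail w) else 0

theorem coeff_emb (F : MvPowerSeries (Fin n) ℤ) (w : Fin (n + 1) →₀ ℕ) :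
    MvPowerSeries.coeff w (emb F) =
      if w 0 = 0 then MvPowerSeries.coeff (Finsupp.tail w) F else 0 := rfl

theorem emb_mul (F : MvPowerSeries (Fin n) ℤ) (u : Fin n →₀ ℕ) :
    emb (F * (1 - MvPowerSeries.monomial u 1)) =
      emb F * (1 - MvPowerSeries.monomial (u.cons 0) 1) := by
  classical
  ext w
  rw [coeff_emb, mul_sub, mul_one, map_sub, mul_sub, mul_one, map_sub, mul_comm F,
    mul_comm (emb F), MvPowerSeries.coeff_monomial_mul, MvPowerSeries.coeff_monomial_mul,
    coeff_emb, coeff_emb, one_mul, one_mul]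
  have h1 : u.cons 0 ≤ w ↔ u ≤ Finsupp.tail w := by
    constructor
    · intro h i
      have := h i.succ
      rwa [Finsupp.cons_succ] at this
    · intro h i
      refine Fin.cases ?_ (fun j => ?_) i
      · simp
      · rw [Finsupp.cons_succ]; exact h j
  have h2 : (w - u.cons 0) 0 = w 0 := by simp
  rw [h2, tail_sub, Finsupp.tail_cons]
  by_cases h : w 0 = 0
  · simp only [h, if_true, h1]
  · simp only [h, if_false]
    simp

theorem emb_prod (F : MvPowerSeries (Fin n) ℤ) {τ : Type} (J : Finset τ)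
    (wt : τ → (Fin n →₀ ℕ)) :
    emb (F * ∏ s ∈ J, (1 - MvPowerSeries.monomial (wt s) 1)) =
      emb F * ∏ s ∈ J, (1 - MvPowerSeries.monomial ((wt s).cons 0) 1) := by
  classical
  induction J using Finset.induction_on with
  | empty => simp
  | insert s J hs ih =>
    rw [Finset.prod_insert hs, Finset.prod_insert hs, mul_comm (1 - _), ← mul_assoc, emb_mul, ih]
    ring

theorem emb_coe (P : MvPolynomial (Fin n) ℤ) :
    emb (P : MvPowerSeries (Fin n) ℤ) =
      ((rename Fin.succ P : MvPolynomial (Fin (n + 1)) ℤ) : MvPowerSeries (Fin (n + 1)) ℤ) := by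
  classical
  ext w
  rw [coeff_emb, MvPolynomial.coeff_coe, MvPolynomial.coeff_coe]
  split_ifs with h
  · have h1 : w = (Finsupp.tail w).mapDomain Fin.succ := by
      ext i
      refine Fin.cases ?_ (fun j => ?_) i
      · rw [h, Finsupp.mapDomain_of_notMem_range]
        simp
      · rw [Finsupp.mapDomain_apply (Fin.succ_injective n), Finsupp.tail_apply]
    conv_rhs => rw [h1]
    rw [coeff_rename_mapDomain _ (Fin.succ_injective n)]
  · rw [coeff_rename_eq_zero]
    rintro u hu
    exfalso
    apply h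
    rw [← hu, Finsupp.mapDomain_of_notMem_range]
    simp

end Pool.Agent.K7.H25.OG
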