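import Pool.Agent.K7.H25.OG.Kspec

/-!
# Symmetry of the K-polynomial of `MX_{1^m × z}` in the first `m` variables
-/

set_option autoImplicit false
set_option linter.unusedSectionVars false
set_option linter.unnecessarySeqFocus false

namespace Pool.Agent.K7.H25.OG

open Finset MvPolynomial

/-- `1^m × z` -/
def oneX {n : ℕ} : (m : ℕ) → Equiv.Perm (Fin n) → Equiv.Perm (Fin (n + m))
  | 0, z => z
  | m + 1, z => oneTimes (oneX m z)

theorem oneX_succ {n : ℕ} (m : ℕ) (z : Equiv.Perm (Fin n)) :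
    oneX (m + 1) z = oneTimes (oneX m z) := rfl

theorem min_le_rank {n : ℕ} (z : Equiv.Perm (Fin n)) : ∀ m i j : ℕ, (i ≤ m ∨ j ≤ m) →
    min i j ≤ (ul (permMat (oneX m z)) i j).rank := by
  intro m
  induction m with
  | zero =>
    rintro i j (h | h)
    · rw [Nat.le_zero.1 h]; simp
    · rw [Nat.le_zero.1 h]; simp
  | succ m ih =>
    intro i j h
    rcases i with _ | i
    · simp
    rcases j with _ | j
    · simp
    rw [oneX_succ, rank_perm_succ]
    have := ih i j (by omega)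
    omega

theorem rank_le_min {n : ℕ} (A : Matrix (Fin n) (Fin n) ℂ) (i j : ℕ) :
    (ul A i j).rank ≤ min i j := by
  have h : ∀ i : ℕ, Fintype.card {k : Fin n // (k : ℕ) < i} ≤ i := by
    intro i
    have h1 := Fintype.card_le_of_injective
      (fun k : {k : Fin n // (k : ℕ) < i} => (⟨k.1.1, k.2⟩ : Fin i)) (by
        rintro ⟨⟨a, _⟩, _⟩ ⟨⟨b, _⟩, _⟩ hab
        simpa using hab)
    simpa using h1
  exact le_min ((Matrix.rank_le_card_height _).trans (h i))
    ((Matrix.rank_le_card_width _).trans (h j))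

variable {N : ℕ}

theorem lt_iff_of_fix {π : Equiv.Perm (Fin N)} {m : ℕ} (hπ : ∀ k : Fin N, m ≤ (k : ℕ) → π k = k)
    {i : ℕ} (hi : m ≤ i) (x : Fin N) : ((π x : Fin N) : ℕ) < i ↔ (x : ℕ) < i := by
  by_cases hx : m ≤ (x : ℕ)
  · rw [hπ x hx]
  · have h1 : ((π x : Fin N) : ℕ) < m := by
      by_contra h2
      have h3 := hπ (π x) (not_lt.1 h2)
      have h4 := π.injective h3
      rw [h4] at h2
      exact hx (not_lt.1 h2)
    omega

theorem MX_symm {z : Equiv.Perm (Fin N)} {m : ℕ}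
    (hz : ∀ i j : ℕ, (i ≤ m ∨ j ≤ m) → min i j ≤ (ul (permMat z) i j).rank)
    {π : Equiv.Perm (Fin N)} (hπ : ∀ k : Fin N, m ≤ (k : ℕ) → π k = k)
    {a : Sym2 (Fin N) → ℂ} (ha : a ∈ MX z) : (fun s => a (Sym2.map π s)) ∈ MX z := by
  intro i j hi hj
  by_cases h : i ≤ m ∨ j ≤ m
  · exact (rank_le_min _ _ _).trans (hz i j h)
  · refine le_trans (le_of_eq ?_) (ha i j hi hj)
    rw [not_or, not_le, not_le] at h
    have e1 := lt_iff_of_fix hπ h.1.le
    have e2 := lt_iff_of_fix hπ h.2.le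
    rw [← Matrix.rank_submatrix (ul (symMat a) i j) (π.subtypePerm e1) (π.subtypePerm e2)]
    rfl

theorem wtS_map (π : Equiv.Perm (Fin N)) (s : Sym2 (Fin N)) :
    wtS N (Sym2.map π s) = (wtS N s).mapDomain π := by
  induction s using Sym2.ind with
  | _ i j =>
    rw [Sym2.map_mk, wtS_mk, wtS_mk, Finsupp.mapDomain_add, Finsupp.mapDomain_single,
      Finsupp.mapDomain_single]

theorem weight_map (π : Equiv.Perm (Fin N)) (μ : Sym2 (Fin N) →₀ ℕ) :
    Finsupp.weight (wtS N) (μ.mapDomain (Sym2.map π)) =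
      (Finsupp.weight (wtS N) μ).mapDomain π := by
  induction μ using Finsupp.induction_linear with
  | zero => simp
  | add f g hf hg => rw [Finsupp.mapDomain_add, map_add, hf, hg, map_add, Finsupp.mapDomain_add]
  | single s c =>
    rw [Finsupp.mapDomain_single, Finsupp.weight_single, Finsupp.weight_single, wtS_map,
      Finsupp.mapDomain_smul]

theorem rename_mem (π : Equiv.Perm (Fin N)) {w : Fin N →₀ ℕ} {F : MvPolynomial (Sym2 (Fin N)) ℂ}
    (hF : F ∈ weightedHomogeneousSubmodule ℂ (wtS N) w) :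
    rename (Sym2.map π) F ∈ weightedHomogeneousSubmodule ℂ (wtS N) (w.mapDomain π) := by
  intro μ hμ
  obtain ⟨ν, rfl, hν⟩ := coeff_rename_ne_zero _ _ _ hμ
  rw [weight_map, hF hν]

theorem mapDomain_symm (π : Equiv.Perm (Fin N)) (w : Fin N →₀ ℕ) :
    (w.mapDomain π).mapDomain π.symm = w := by
  rw [← Finsupp.mapDomain_comp, Equiv.symm_comp_self, Finsupp.mapDomain_id]

theorem ws_map (π : Equiv.Perm (Fin N)) (w : Fin N →₀ ℕ) :
    weightedHomogeneousSubmodule ℂ (wtS N) (w.mapDomain π) =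
      (weightedHomogeneousSubmodule ℂ (wtS N) w).map
        (rename (R := ℂ) (Sym2.map π)).toLinearMap := by
  apply le_antisymm
  · intro F hF
    refine ⟨rename (Sym2.map π.symm) F, ?_, ?_⟩
    · have := rename_mem π.symm hF
      rwa [mapDomain_symm] at this
    · rw [AlgHom.toLinearMap_apply, rename_rename, ← Sym2.map_comp, Equiv.self_comp_symm,
        Sym2.map_id, rename_id, AlgHom.id_apply]
  · rintro _ ⟨F, hF, rfl⟩
    exact rename_mem π hF

theorem hv_symm {V : Set (Sym2 (Fin N) → ℂ)} {π : Equiv.Perm (Fin N)}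
    (h1 : ∀ a ∈ V, (fun s => a (Sym2.map π s)) ∈ V)
    (h2 : ∀ a ∈ V, (fun s => a (Sym2.map π.symm s)) ∈ V) (w : Fin N →₀ ℕ) :
    hv (wtS N) V (w.mapDomain π) = hv (wtS N) V w := by
  rw [hv, hv, ws_map, ← Submodule.map_comp]
  refine finrank_map_eq _ _ _ fun F _ => ?_
  rw [LinearMap.comp_apply, ev_eq_zero, ev_eq_zero]
  simp only [AlgHom.toLinearMap_apply, eval_rename]
  constructor
  · intro h a ha
    have h3 := h _ (h2 a ha)
    have h4 : (fun s => a (Sym2.map π.symm s)) ∘ Sym2.map π = a := by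
      funext s
      rw [Function.comp_apply, Sym2.map_map, Equiv.symm_comp_self, Sym2.map_id, id]
    rwa [h4] at h3
  · intro h a ha
    exact h _ (h1 a ha)

theorem sv_symm {V : Set (Sym2 (Fin N) → ℂ)} {π : Equiv.Perm (Fin N)}
    (h1 : ∀ a ∈ V, (fun s => a (Sym2.map π s)) ∈ V)
    (h2 : ∀ a ∈ V, (fun s => a (Sym2.map π.symm s)) ∈ V) :
    MvPowerSeries.rename π (sv (wtS N) V) = sv (wtS N) V := by
  ext w
  have h3 : w = Finsupp.embDomain π.toEmbedding (w.mapDomain π.symm) := by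
    rw [Finsupp.embDomain_eq_mapDomain, ← Finsupp.mapDomain_comp]
    simp
  have h4 := MvPowerSeries.coeff_embDomain_rename π.toEmbedding (sv (wtS N) V)
    (w.mapDomain π.symm)
  rw [← h3] at h4
  refine h4.trans ?_
  rw [coeff_sv, coeff_sv]
  congr 1
  exact hv_symm h2 (by simpa using h1) w

theorem Kp_symm {z : Equiv.Perm (Fin N)} {m : ℕ}
    (hz : ∀ i j : ℕ, (i ≤ m ∨ j ≤ m) → min i j ≤ (ul (permMat z) i j).rank)
    {π : Equiv.Perm (Fin N)} (hπ : ∀ k : Fin N, m ≤ (k : ℕ) → π k = k) :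
    rename π (Kp z) = Kp z := by
  apply MvPolynomial.coe_injective
  have hπ' : ∀ k : Fin N, m ≤ (k : ℕ) → π.symm k = k := by
    intro k hk
    rw [Equiv.symm_apply_eq, hπ k hk]
  rw [← MvPowerSeries.rename_coe, Kp_spec, map_mul, sv_symm (fun a ha => MX_symm hz hπ ha)
    (fun a ha => MX_symm hz hπ' ha), map_prod]
  congr 1
  have hb : Function.Bijective (Sym2.map π) :=
    Finite.injective_iff_bijective.1 (Sym2.map.injective π.injective)
  rw [← hb.prod_comp (fun s => (1 : MvPowerSeries (Fin N) ℤ) -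
    MvPowerSeries.monomial (wtS N s) 1)]
  refine Finset.prod_congr rfl fun s _ => ?_
  rw [map_sub, map_one, MvPowerSeries.rename_monomial, wtS_map]

/-- the K-polynomial of `MX_{1^m × z}` is symmetric in its first `m` variables -/
theorem Kp_oneX_symm {n : ℕ} (z : Equiv.Perm (Fin n)) (m : ℕ) {π : Equiv.Perm (Fin (n + m))}
    (hπ : ∀ k : Fin (n + m), m ≤ (k : ℕ) → π k = k) :
    rename π (Kp (oneX m z)) = Kp (oneX m z) :=
  Kp_symm (min_le_rank z m) hπ

end Pool.Agent.K7.H25.OG
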